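import Mathlib
import Pool.Agent.R240.Loc

set_option autoImplicit false

/-! # The continuum of the points where local connectivity fails -/

namespace Pool.Agent.H7M.Fail

open Set Metric Filter Topology Pool.Agent.R240.Loc

/-- components of two balls reaching `p` -/
theorem comps {X : Set ℂ} (hX : IsCompact X) (hc : IsPreconnected X) {p : ℂ}
    (h : ¬ CIK X p) : ∃ (ε : ℝ) (q : ℕ → ℂ), 0 < ε ∧ p ∈ X ∧ Tendsto q atTop (𝓝 p) ∧
      (∀ n, q n ∈ X ∩ closedBall p (ε / 2)) ∧
      (∀ n, p ∉ connectedComponentIn (X ∩ closedBall p ε) (q n)) ∧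
      (∃ k ∈ X, ε < dist k p) := by
  unfold CIK at h
  push Not at h
  obtain ⟨ε₀, hε₀, h⟩ := h
  obtain ⟨ε, hε⟩ : ∃ ε, ε = ε₀ / 2 := ⟨_, rfl⟩
  have hε0 : 0 < ε := by rw [hε]; linarith
  have hεε : ε < ε₀ := by rw [hε]; linarith
  have h1 : ∀ n : ℕ, ∃ y, y ∈ X ∧ dist y p < min (ε / 2) (1 / ((n : ℝ) + 1)) ∧
      ∀ C ⊆ X ∩ ball p ε₀, IsPreconnected C → p ∈ C → y ∉ C := by
    intro n
    obtain ⟨y, h1, h2, h3⟩ := h (min (ε / 2) (1 / ((n : ℝ) + 1))) (by positivity)
    exact ⟨y, h1, h2, h3⟩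
  choose q hq using h1
  have hqlim : Tendsto q atTop (𝓝 p) := by
    rw [tendsto_iff_dist_tendsto_zero]
    exact squeeze_zero (fun _ => dist_nonneg)
      (fun n => (hq n).2.1.le.trans (min_le_right _ _)) tendsto_one_div_add_atTop_nhds_zero_nat
  have hpX : p ∈ X := hX.isClosed.mem_of_tendsto hqlim (Eventually.of_forall fun n => (hq n).1)
  refine ⟨ε, q, hε0, hpX, hqlim, fun n => ⟨(hq n).1, mem_closedBall.2
    ((hq n).2.1.le.trans (min_le_left _ _))⟩, ?_, ?_⟩
  · intro n hp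
    have hqn : q n ∈ X ∩ closedBall p ε := ⟨(hq n).1, mem_closedBall.2
      (((hq n).2.1.le.trans (min_le_left _ _)).trans (by linarith))⟩
    refine (hq n).2.2 _ ((connectedComponentIn_subset _ (q n)).trans fun y hy => ⟨hy.1,
      closedBall_subset_ball hεε hy.2⟩) isPreconnected_connectedComponentIn hp
      (mem_connectedComponentIn hqn)
  · by_contra hcon
    push Not at hcon
    exact (hq 0).2.2 X (fun y hy => ⟨hy, mem_ball.2 ((hcon y hy).trans_lt hεε)⟩) hc hpX (hq 0).1

/-- **The continuum of failure.** If the continuum `X` is not locally connected at `p` then there is a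
continuum `Y` through `p` which meets all small circles about `p`, at each point of which `X` is
not locally connected, and which is not separated in `X` by finitely many small connected sets. -/
theorem failure {X : Set ℂ} (hX : IsCompact X) (hc : IsPreconnected X) {p : ℂ}
    (h : ¬ CIK X p) : ∃ (ε : ℝ) (Y : Set ℂ), 0 < ε ∧ Y ⊆ X ∧ IsCompact Y ∧ IsPreconnected Y ∧
      p ∈ Y ∧ (∀ s : ℝ, 0 < s → s < ε → ∃ z ∈ Y, dist z p = s) ∧ (∀ z ∈ Y, ¬ CIK X z) ∧
      ∀ (S : Set ℂ) (T : Set (Set ℂ)), T.Finite → S ⊆ ⋃₀ T → (∀ t ∈ T, IsPreconnected t ∧ t ⊆ X ∧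
        ∀ x ∈ t, ∀ y ∈ t, dist x y ≤ ε) → ∀ U V : Set ℂ, IsOpen U →
        IsOpen V → X \ S ⊆ U ∪ V → (X \ S) ∩ (U ∩ V) = ∅ → Y \ S ⊆ U ∨ Y \ S ⊆ V := by
  obtain ⟨ε, q, hε, hpX, hqlim, hq, hqp, k, hk, hkp⟩ := comps hX hc h
  obtain ⟨F, hF⟩ : ∃ F : Set ℂ, F = X ∩ closedBall p ε := ⟨_, rfl⟩
  obtain ⟨F', hF'⟩ : ∃ F' : Set ℂ, F' = X ∩ closedBall p (ε / 2) := ⟨_, rfl⟩
  rw [← hF] at hqp
  rw [← hF'] at hq
  have hFc : IsCompact F := by rw [hF]; exact hX.inter_right isClosed_closedBall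
  have hF'c : IsCompact F' := by rw [hF']; exact hX.inter_right isClosed_closedBall
  have hFF : F' ⊆ F := by
    rw [hF, hF']
    exact inter_subset_inter_right _ (closedBall_subset_closedBall (by linarith))
  obtain ⟨C, hC⟩ : ∃ C : ℕ → Set ℂ, C = fun n => connectedComponentIn F' (q n) := ⟨_, rfl⟩
  obtain ⟨D, hD⟩ : ∃ D : ℕ → Set ℂ, D = fun n => connectedComponentIn F (q n) := ⟨_, rfl⟩
  have hCc : ∀ n, IsPreconnected (C n) := fun n => by
    rw [hC]; exact isPreconnected_connectedComponentIn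
  have hCF : ∀ n, C n ⊆ F' := fun n => by rw [hC]; exact connectedComponentIn_subset _ _
  have hqC : ∀ n, q n ∈ C n := fun n => by rw [hC]; exact mem_connectedComponentIn (hq n)
  have hCD : ∀ n, C n ⊆ D n := fun n => by
    rw [hD]
    exact (hCc n).subset_connectedComponentIn (hqC n) ((hCF n).trans hFF)
  have hpD : ∀ n, p ∉ D n := fun n => by rw [hD]; exact hqp n
  -- a point of `F` lies in `D n` for almost no `n`
  let u : Filter ℕ := (hyperfilter ℕ : Filter ℕ)
  have hu : u ≤ atTop := by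
    rw [← Nat.cofinite_eq_atTop]
    exact hyperfilter_le_cofinite
  have hult : ∀ P : ℕ → Prop, (∀ᶠ n in u, P n) ∨ ∀ᶠ n in u, ¬ P n := by
    intro P
    exact (hyperfilter ℕ).em P
  have hnot : ∀ a ∈ F, ∀ᶠ n in u, a ∉ D n := by
    intro a ha
    rcases hult (fun n => a ∈ D n) with h1 | h1
    · exfalso
      have hcl : IsClosed (connectedComponentIn F a) := by
        rw [connectedComponentIn_eq_image ha]
        have : CompactSpace F := isCompact_iff_compactSpace.1 hFc
        exact (isClosed_connectedComponent.isCompact.image continuous_subtype_val).isClosed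
      have h2 : ∀ᶠ n in u, q n ∈ connectedComponentIn F a := by
        filter_upwards [h1] with n hn
        rw [hD] at hn
        rw [← connectedComponentIn_eq hn]
        exact mem_connectedComponentIn (hFF (hq n))
      have h3 : p ∈ connectedComponentIn F a := hcl.mem_of_tendsto (hqlim.mono_left hu) h2
      obtain ⟨n, hn⟩ := h1.exists
      apply hpD n
      rw [hD] at hn ⊢
      show p ∈ connectedComponentIn F (q n)
      rwa [connectedComponentIn_eq hn]
    · exact h1
  -- the limit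
  obtain ⟨Y, hY⟩ : ∃ Y : Set ℂ, Y = {y | ∀ r : ℝ, 0 < r → ∀ᶠ n in u, (C n ∩ ball y r).Nonempty} :=
    ⟨_, rfl⟩
  have hlim : ∀ z : ℕ → ℂ, (∀ n, z n ∈ F') → ∃ y ∈ F', Tendsto z u (𝓝 y) := by
    intro z hz
    have h1 : ((hyperfilter ℕ).map z : Filter ℂ) ≤ 𝓟 F' := by
      rw [le_principal_iff]
      exact mem_map.2 (univ_mem' hz)
    obtain ⟨y, hy, hle⟩ := hF'c.ultrafilter_le_nhds ((hyperfilter ℕ).map z) h1
    exact ⟨y, hy, hle⟩
  -- limits of points of the components are in `Y`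
  have hlimY : ∀ (z : ℕ → ℂ) (y : ℂ), (∀ᶠ n in u, z n ∈ C n) → Tendsto z u (𝓝 y) → y ∈ Y := by
    intro z y hz hy
    rw [hY]
    intro r hr
    filter_upwards [hz, hy (ball_mem_nhds y hr)] with n h1 h2
    exact ⟨z n, h1, h2⟩
  -- an ultrafilter form of choice
  have hpick : ∀ P : ℕ → ℂ → Prop, (∀ᶠ n in u, ∃ z ∈ C n, P n z) → ∃ (z : ℕ → ℂ) (y : ℂ),
      y ∈ Y ∧ y ∈ F' ∧ Tendsto z u (𝓝 y) ∧ (∀ᶠ n in u, z n ∈ C n ∧ P n (z n)) := by
    intro P hP
    classical
    have h1 : ∀ n, ∃ z, z ∈ C n ∧ ((∃ z ∈ C n, P n z) → P n z) := by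
      intro n
      by_cases hn : ∃ z ∈ C n, P n z
      · obtain ⟨z, hz1, hz2⟩ := hn
        exact ⟨z, hz1, fun _ => hz2⟩
      · exact ⟨q n, hqC n, fun hn' => absurd hn' hn⟩
    choose z hz using h1
    obtain ⟨y, hy, hzy⟩ := hlim z fun n => hCF n (hz n).1
    refine ⟨z, y, hlimY z y (Eventually.of_forall fun n => (hz n).1) hzy, hy, hzy, ?_⟩
    filter_upwards [hP] with n hn
    exact ⟨(hz n).1, (hz n).2 hn⟩
  have hYF : Y ⊆ F' := by
    intro y hy
    rw [← hF'c.isClosed.closure_eq, Metric.mem_closure_iff]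
    intro r hr
    rw [hY] at hy
    obtain ⟨n, z, hz1, hz2⟩ := (hy r hr).exists
    exact ⟨z, hCF n hz1, by rw [dist_comm]; exact hz2⟩
  have hYcl : IsClosed Y := by
    rw [← isOpen_compl_iff, Metric.isOpen_iff]
    intro y hy
    have hy' : ∃ r : ℝ, 0 < r ∧ ¬ ∀ᶠ n in u, (C n ∩ ball y r).Nonempty := by
      by_contra hcon
      apply hy
      rw [hY]
      intro r hr
      by_contra hr'
      exact hcon ⟨r, hr, hr'⟩
    obtain ⟨r, hr, hy⟩ := hy'
    refine ⟨r / 2, by linarith, ?_⟩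
    intro x hx hxY
    rw [hY] at hxY
    apply hy
    filter_upwards [hxY (r / 2) (by linarith)] with n hn
    obtain ⟨z, hz1, hz2⟩ := hn
    refine ⟨z, hz1, ?_⟩
    rw [mem_ball] at hx hz2 ⊢
    have := dist_triangle z x y
    linarith
  have hYc : IsCompact Y := hF'c.of_isClosed_subset hYcl hYF
  -- finitely many small connected sets miss almost all components
  have hmiss : ∀ (S : Set ℂ) (T : Set (Set ℂ)), T.Finite → S ⊆ ⋃₀ T → (∀ t ∈ T,
      IsPreconnected t ∧ t ⊆ X ∧ ∀ x ∈ t, ∀ y ∈ t, dist x y ≤ ε / 2) →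
      ∀ᶠ n in u, Disjoint (C n) S := by
    intro S T hT hST hTp
    have h1 : ∀ᶠ n in u, ∀ t ∈ T, Disjoint (C n) t := by
      rw [hT.eventually_all]
      intro t ht
      obtain ⟨ht1, ht2, ht3⟩ := hTp t ht
      rcases hult (fun n => Disjoint (C n) t) with h1 | h1
      · exact h1
      exfalso
      obtain ⟨n₀, hn₀⟩ := h1.exists
      rw [Set.not_disjoint_iff] at hn₀
      obtain ⟨a, ha1, ha2⟩ := hn₀
      have hsub : ∀ n, ∀ z ∈ C n, z ∈ t → t ⊆ F := by
        intro n z hz hzt x hx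
        rw [hF]
        refine ⟨ht2 hx, mem_closedBall.2 ?_⟩
        have h3 := ht3 x hx z hzt
        have h4 := hCF n hz
        rw [hF'] at h4
        have h5 := mem_closedBall.1 h4.2
        have := dist_triangle x z p
        linarith
      have haF : a ∈ F := hsub n₀ a ha1 ha2 ha2
      obtain ⟨n, hn1, hn2⟩ := (h1.and (hnot a haF)).exists
      rw [Set.not_disjoint_iff] at hn1
      obtain ⟨z, hz1, hz2⟩ := hn1
      apply hn2
      have h4 : z ∈ D n := hCD n hz1
      rw [hD] at h4 ⊢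
      show a ∈ connectedComponentIn F (q n)
      rw [connectedComponentIn_eq h4]
      exact ht1.subset_connectedComponentIn hz2 (hsub n z hz1 hz2) ha2
    filter_upwards [h1] with n hn
    rw [Set.disjoint_left]
    intro z hz hzS
    obtain ⟨t, ht, hzt⟩ := hST hzS
    exact disjoint_left.1 (hn t ht) hz hzt
  have hsep : ∀ (S : Set ℂ) (T : Set (Set ℂ)), T.Finite → S ⊆ ⋃₀ T → (∀ t ∈ T,
      IsPreconnected t ∧ t ⊆ X ∧ ∀ x ∈ t, ∀ y ∈ t, dist x y ≤ ε / 2) → ∀ U V : Set ℂ,
      IsOpen U → IsOpen V → X \ S ⊆ U ∪ V → (X \ S) ∩ (U ∩ V) = ∅ →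
      Y \ S ⊆ U ∨ Y \ S ⊆ V := by
    intro S T hT hST hTp U V hU hV hcov hdis
    have h1 := hmiss S T hT hST hTp
    have hCX : ∀ n, C n ⊆ X := fun n => (hCF n).trans (by rw [hF']; exact inter_subset_left)
    have hYX : Y ⊆ X := hYF.trans (by rw [hF']; exact inter_subset_left)
    have h2 : ∀ᶠ n in u, C n ⊆ U ∨ C n ⊆ V := by
      filter_upwards [h1] with n hn
      have hsub : C n ⊆ X \ S := fun z hz => ⟨hCX n hz, disjoint_left.1 hn hz⟩
      refine isPreconnected_iff_subset_of_disjoint.1 (hCc n) U V hU hV (hsub.trans hcov) ?_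
      rw [eq_empty_iff_forall_notMem] at hdis ⊢
      exact fun z hz => hdis z ⟨hsub hz.1, hz.2⟩
    -- the limit of sets in `U` is in `U`
    have key : ∀ U V : Set ℂ, IsOpen V → X \ S ⊆ U ∪ V → (X \ S) ∩ (U ∩ V) = ∅ →
        (∀ᶠ n in u, C n ⊆ U) → Y \ S ⊆ U := by
      intro U V hV hcov hdis hCU y hy
      rcases hcov ⟨hYX hy.1, hy.2⟩ with hyU | hyV
      · exact hyU
      · exfalso
        obtain ⟨r, hr, hrV⟩ := Metric.isOpen_iff.1 hV y hyV
        have hyY := hy.1
        rw [hY] at hyY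
        obtain ⟨n, ⟨hn1, hn2⟩, z, hz1, hz2⟩ := ((h1.and hCU).and (hyY r hr)).exists
        rw [eq_empty_iff_forall_notMem] at hdis
        exact hdis z ⟨⟨hCX n hz1, disjoint_left.1 hn1 hz1⟩, hn2 hz1, hrV hz2⟩
    rcases hult (fun n => C n ⊆ U) with h3 | h3
    · exact Or.inl (key U V hV hcov hdis h3)
    · refine Or.inr (key V U hU (by rwa [union_comm]) (by rwa [inter_comm V U]) ?_)
      filter_upwards [h2, h3] with n hn1 hn2
      exact hn1.resolve_left hn2
  have hpY : p ∈ Y := hlimY q p (Eventually.of_forall hqC) (hqlim.mono_left hu)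
  refine ⟨ε / 2, Y, by linarith, hYF.trans (by rw [hF']; exact inter_subset_left), hYc, ?_, hpY,
    ?_, ?_, hsep⟩
  · -- connected
    rw [isPreconnected_iff_subset_of_fully_disjoint_closed hYcl]
    intro A B hA hB hAB hdis
    obtain ⟨U, V, hU, hV, hAU, hBV, hUV⟩ := normal_separation hA hB hdis
    have h1 : ∀ᶠ n in u, C n ⊆ U ∪ V := by
      rcases hult (fun n => C n ⊆ U ∪ V) with h1 | h1
      · exact h1
      exfalso
      obtain ⟨z, y, hyY, hyF, hzy, hz⟩ := hpick (fun n z => z ∈ (U ∪ V)ᶜ) (by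
        filter_upwards [h1] with n hn
        rw [Set.not_subset] at hn
        obtain ⟨x, hx1, hx2⟩ := hn
        exact ⟨x, hx1, hx2⟩)
      have h2 : y ∈ (U ∪ V)ᶜ :=
        (hU.union hV).isClosed_compl.mem_of_tendsto hzy (hz.mono fun n hn => hn.2)
      exact h2 ((union_subset_union hAU hBV) (hAB hyY))
    have h2 : ∀ᶠ n in u, C n ⊆ U ∨ C n ⊆ V := by
      filter_upwards [h1] with n hn
      refine isPreconnected_iff_subset_of_disjoint.1 (hCc n) U V hU hV hn ?_
      rw [eq_empty_iff_forall_notMem]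
      exact fun z hz => disjoint_left.1 hUV hz.2.1 hz.2.2
    have key : ∀ A B U V : Set ℂ, IsOpen V → Y ⊆ A ∪ B → B ⊆ V → Disjoint U V →
        (∀ᶠ n in u, C n ⊆ U) → Y ⊆ A := by
      intro A B U V hV hAB hBV hUV hCU y hy
      rcases hAB hy with h | h
      · exact h
      · exfalso
        obtain ⟨r, hr, hrV⟩ := Metric.isOpen_iff.1 hV y (hBV h)
        rw [hY] at hy
        obtain ⟨n, hn1, z, hz1, hz2⟩ := (hCU.and (hy r hr)).exists
        exact disjoint_left.1 hUV (hn1 hz1) (hrV hz2)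
    rcases hult (fun n => C n ⊆ U) with h3 | h3
    · exact Or.inl (key A B U V hV hAB hBV hUV h3)
    · refine Or.inr (key B A V U hU (by rwa [union_comm]) hAU hUV.symm ?_)
      filter_upwards [h2, h3] with n hn1 hn2
      exact hn1.resolve_left hn2
  · -- circles
    intro s hs0 hsε
    obtain ⟨z, y, hyY, hyF, hzy, hz⟩ := hpick (fun n z => dist z p = s) (by
      filter_upwards [(hqlim.mono_left hu) (ball_mem_nhds p hs0)] with n hn
      rw [mem_preimage, mem_ball] at hn
      obtain ⟨y, hy, hyp⟩ := bump (ε := ε / 2) hX hc (by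
        have := hq n
        rw [hF'] at this
        exact this.1) (hn.trans hsε) hk (by linarith)
      rw [← hF'] at hy
      have hy' : y ∈ C n := by rw [hC]; exact hy
      have h2 := (hCc n).intermediate_value (hqC n) hy' (f := fun x => dist x p) (by fun_prop)
      obtain ⟨z, hz1, hz2⟩ := h2 (show s ∈ Icc _ _ from ⟨hn.le, by rw [hyp]; exact hsε.le⟩)
      exact ⟨z, hz1, hz2⟩)
    refine ⟨y, hyY, ?_⟩
    have h1 : Tendsto (fun n => dist (z n) p) u (𝓝 (dist y p)) := hzy.dist tendsto_const_nhds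
    refine tendsto_nhds_unique h1 (tendsto_const_nhds.congr' ?_)
    filter_upwards [hz] with n hn
    exact hn.2.symm
  · -- no point is good
    intro y hy hcik
    have hyF := hYF hy
    have hyp : dist y p ≤ ε / 2 := by
      rw [hF'] at hyF
      exact hyF.2
    obtain ⟨δ, hδ, hlc⟩ := hcik (ε / 2) (by linarith)
    have hyY := hy
    rw [hY] at hyY
    have h2 : ∀ᶠ n in u, y ∈ D n := by
      filter_upwards [hyY δ hδ] with n hn
      obtain ⟨z, hz1, hz2⟩ := hn
      obtain ⟨T, hT1, hT2, hT3, hT4⟩ := hlc z (by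
        have := hCF n hz1
        rw [hF'] at this
        exact this.1) hz2
      have hTF : T ⊆ F := by
        intro t ht
        rw [hF]
        refine ⟨(hT1 ht).1, mem_closedBall.2 ?_⟩
        have h3 := (hT1 ht).2
        rw [mem_ball] at h3
        have := dist_triangle t y p
        linarith
      have h4 : z ∈ D n := hCD n hz1
      rw [hD] at h4 ⊢
      show y ∈ connectedComponentIn F (q n)
      rw [connectedComponentIn_eq h4]
      exact hT2.subset_connectedComponentIn hT4 hTF hT3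
    obtain ⟨n, hn1, hn2⟩ := (h2.and (hnot y (hFF hyF))).exists
    exact hn2 hn1

end Pool.Agent.H7M.Fail
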