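import Mathlib
import Pool.Agent.H7M.Fail

set_option autoImplicit false

/-! # A continuum which is not separated by points contains few cut points -/

namespace Pool.Agent.H7M.Fail

open Set Metric Filter Topology Pool.Agent.R240.Loc

/-- one side of a cut point, together with the cut point, is connected -/
theorem side_preconnected {X U W : Set ℂ} (hX : IsPreconnected X) {c : ℂ} (hc : c ∈ X)
    (hU : IsOpen U) (hW : IsOpen W) (hcW : c ∉ W) (hcov : X \ {c} ⊆ U ∪ W)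
    (hdis : (X \ {c}) ∩ (U ∩ W) = ∅) : IsPreconnected ((X ∩ W) ∪ {c}) := by
  have key : ∀ O₁ O₂ : Set ℂ, IsOpen O₁ → IsOpen O₂ → (X ∩ W) ∪ {c} ⊆ O₁ ∪ O₂ →
      ((X ∩ W) ∪ {c}) ∩ (O₁ ∩ O₂) = ∅ → c ∈ O₁ → (X ∩ W) ∪ {c} ⊆ O₁ := by
    intro O₁ O₂ h1 h2 h3 h4 h5
    rw [eq_empty_iff_forall_notMem] at h4 hdis
    have hc2 : c ∉ O₂ := fun h => h4 c ⟨Or.inr rfl, h5, h⟩
    have h6 := isPreconnected_iff_subset_of_disjoint.1 hX (W ∩ O₂) (U ∪ O₁) (hW.inter h2)
      (hU.union h1) (by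
        intro x hx
        by_cases hxc : x = c
        · rw [hxc]
          exact Or.inr (Or.inr h5)
        rcases hcov ⟨hx, hxc⟩ with h | h
        · exact Or.inr (Or.inl h)
        · rcases h3 (Or.inl ⟨hx, h⟩) with h' | h'
          · exact Or.inr (Or.inr h')
          · exact Or.inl ⟨h, h'⟩) (by
        rw [eq_empty_iff_forall_notMem]
        rintro x ⟨hx, ⟨hxW, hxO⟩, h | h⟩
        · refine hdis x ⟨⟨hx, ?_⟩, h, hxW⟩
          rintro rfl
          exact hcW hxW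
        · exact h4 x ⟨Or.inl ⟨hx, hxW⟩, h, hxO⟩)
    rcases h6 with h6 | h6
    · exact absurd (h6 hc).1 hcW
    · rintro x (hx | hx)
      · rcases h3 (Or.inl hx) with h | h
        · exact h
        · rcases h6 hx.1 with h' | h'
          · exfalso
            refine hdis x ⟨⟨hx.1, ?_⟩, h', hx.2⟩
            rintro rfl
            exact hcW hx.2
          · exact h'
      · rw [mem_singleton_iff] at hx
        rw [hx]
        exact h5
  rw [isPreconnected_iff_subset_of_disjoint]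
  intro O₁ O₂ h1 h2 h3 h4
  rcases h3 (Or.inr rfl) with h | h
  · exact Or.inl (key O₁ O₂ h1 h2 h3 h4 h)
  · exact Or.inr (key O₂ O₁ h2 h1 (by rwa [union_comm O₂ O₁]) (by rwa [inter_comm O₂ O₁]) h)

/-- A subset `Y` of a connected set `X` which is not separated in `X` by its single points contains
at most countably many cut points of `X`. -/
theorem cut_countable {X Y : Set ℂ} (hX : IsPreconnected X) (hYX : Y ⊆ X)
    (hsep : ∀ c ∈ Y, ∀ U V : Set ℂ, IsOpen U → IsOpen V → X \ {c} ⊆ U ∪ V →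
      (X \ {c}) ∩ (U ∩ V) = ∅ → Y \ {c} ⊆ U ∨ Y \ {c} ⊆ V) :
    {c | c ∈ Y ∧ ¬ IsPreconnected (X \ {c})}.Countable := by
  classical
  have h1 : ∀ c, ∃ U W : Set ℂ, c ∈ {c | c ∈ Y ∧ ¬ IsPreconnected (X \ {c})} →
      IsOpen U ∧ IsOpen W ∧ c ∉ W ∧ X \ {c} ⊆ U ∪ W ∧ (X \ {c}) ∩ (U ∩ W) = ∅ ∧
      Y \ {c} ⊆ U ∧ (X ∩ W).Nonempty := by
    intro c
    by_cases hc : c ∈ {c | c ∈ Y ∧ ¬ IsPreconnected (X \ {c})}
    swap
    · exact ⟨∅, ∅, fun h => absurd h hc⟩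
    obtain ⟨hcY, hc⟩ := hc
    rw [isPreconnected_iff_subset_of_disjoint] at hc
    push Not at hc
    obtain ⟨U, V, hU, hV, h2, h3, h4, h5⟩ := hc
    have key : ∀ U V : Set ℂ, IsOpen U → IsOpen V → X \ {c} ⊆ U ∪ V →
        (X \ {c}) ∩ (U ∩ V) = ∅ → ¬ X \ {c} ⊆ U → Y \ {c} ⊆ U →
        ∃ U W : Set ℂ, c ∈ {c | c ∈ Y ∧ ¬ IsPreconnected (X \ {c})} →
      IsOpen U ∧ IsOpen W ∧ c ∉ W ∧ X \ {c} ⊆ U ∪ W ∧ (X \ {c}) ∩ (U ∩ W) = ∅ ∧
      Y \ {c} ⊆ U ∧ (X ∩ W).Nonempty := by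
      intro U V hU hV h2 h3 h4 h6
      refine ⟨U, V \ {c}, fun _ => ⟨hU, hV.sdiff isClosed_singleton, fun h => h.2 rfl, ?_, ?_, h6,
        ?_⟩⟩
      · intro x hx
        rcases h2 hx with h | h
        · exact Or.inl h
        · exact Or.inr ⟨h, hx.2⟩
      · rw [eq_empty_iff_forall_notMem] at h3 ⊢
        exact fun x hx => h3 x ⟨hx.1, hx.2.1, hx.2.2.1⟩
      · rw [Set.not_subset] at h4
        obtain ⟨x, hx, hxU⟩ := h4
        rcases h2 hx with h | h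
        · exact absurd h hxU
        · exact ⟨x, hx.1, h, hx.2⟩
    rcases hsep c hcY U V hU hV h2 h3 with h6 | h6
    · exact key U V hU hV h2 h3 h4 h6
    · exact key V U hV hU (by rwa [union_comm V U]) (by rwa [inter_comm V U]) h5 h6
  choose U W h1 using h1
  have h2 : ({c | c ∈ Y ∧ ¬ IsPreconnected (X \ {c})} : Set ℂ).PairwiseDisjoint
      (fun c => (Subtype.val ⁻¹' W c : Set X)) := by
    intro c hc c' hc' hne
    obtain ⟨hU, hW, hcW, hcov, hdis, hYU, hne1⟩ := h1 c hc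
    obtain ⟨hU', hW', hcW', hcov', hdis', hYU', hne1'⟩ := h1 c' hc'
    have hcX := hYX hc.1
    have hT := side_preconnected hX hcX hU hW hcW hcov hdis
    have hYW : ∀ y ∈ Y, y ∉ W c := by
      intro y hy hyW
      by_cases hyc : y = c
      · rw [hyc] at hyW
        exact hcW hyW
      · rw [eq_empty_iff_forall_notMem] at hdis
        exact hdis y ⟨⟨hYX hy, hyc⟩, hYU ⟨hy, hyc⟩, hyW⟩
    have hTX : (X ∩ W c) ∪ {c} ⊆ X \ {c'} := by
      rintro x (hx | hx)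
      · refine ⟨hx.1, ?_⟩
        rintro rfl
        exact hYW x hc'.1 hx.2
      · rw [mem_singleton_iff] at hx
        rw [hx]
        exact ⟨hcX, hne⟩
    rw [eq_empty_iff_forall_notMem] at hdis'
    have hcU' : c ∈ U c' := hYU' ⟨hc.1, hne⟩
    have h5 : (X ∩ W c) ∪ {c} ⊆ U c' := by
      rcases isPreconnected_iff_subset_of_disjoint.1 hT (U c') (W c') hU' hW'
        (hTX.trans hcov') (by
          rw [eq_empty_iff_forall_notMem]
          exact fun x hx => hdis' x ⟨hTX hx.1, hx.2⟩) with h | h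
      · exact h
      · exact absurd ⟨hcU', h (Or.inr rfl)⟩ (fun h' => hdis' c ⟨⟨hcX, hne⟩, h'⟩)
    show Disjoint _ _
    rw [Set.disjoint_left]
    rintro ⟨x, hx⟩ hx1 hx2
    have hx1' : x ∈ W c := hx1
    have hx2' : x ∈ W c' := hx2
    exact hdis' x ⟨hTX (Or.inl ⟨hx, hx1'⟩), h5 (Or.inl ⟨hx, hx1'⟩), hx2'⟩
  refine h2.countable_of_isOpen ?_ ?_
  · intro c hc
    exact (h1 c hc).2.1.preimage continuous_subtype_val
  · intro c hc
    obtain ⟨x, hx1, hx2⟩ := (h1 c hc).2.2.2.2.2.2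
    exact ⟨⟨x, hx1⟩, hx2⟩

end Pool.Agent.H7M.Fail
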