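import Mathlib
import Pool.Agent.H7M.Cut

set_option autoImplicit false

/-! # Local connectivity of a plane continuum in terms of a class of its boundary points -/

namespace Pool.Agent.H7M.Fail

open Set Metric Filter Topology MeasureTheory Pool.Agent.R240.Loc

/-- `S` separates `a` and `b` in `M`. -/
def Sep (M S : Set ℂ) (a b : ℂ) : Prop :=
  ∃ U V : Set ℂ, IsOpen U ∧ IsOpen V ∧ M \ S ⊆ U ∪ V ∧ (M \ S) ∩ (U ∩ V) = ∅ ∧
    a ∈ U \ S ∧ b ∈ V \ S

/-- finitely many subcontinua of diameter less than `η` separate `a` and `b` in `M` -/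
def Pinch (M : Set ℂ) (η : ℝ) (a b : ℂ) : Prop :=
  ∃ T : Set (Set ℂ), T.Finite ∧ (∀ t ∈ T, IsCompact t ∧ IsConnected t ∧ t ⊆ M ∧ diam t < η) ∧
    Sep M (⋃₀ T) a b

/-- a locally connected compact subset of `M` separates `a` and `b` in `M` -/
def Cutoff (M : Set ℂ) (a b : ℂ) : Prop :=
  ∃ S : Set ℂ, IsCompact S ∧ LocallyConnectedSpace S ∧ S ⊆ M ∧ Sep M S a b

theorem cik_of_interior {X : Set ℂ} {z : ℂ} (hz : z ∈ interior X) : CIK X z := by
  intro ε hε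
  obtain ⟨ρ, hρ, hρX⟩ := Metric.isOpen_iff.1 isOpen_interior z hz
  refine ⟨min ρ ε, lt_min hρ hε, fun q hq hqz => ⟨ball z (min ρ ε), ?_,
    (convex_ball z _).isPreconnected, mem_ball_self (lt_min hρ hε), hqz⟩⟩
  intro x hx
  exact ⟨interior_subset (hρX (ball_subset_ball (min_le_left _ _) hx)),
    ball_subset_ball (min_le_right _ _) hx⟩

theorem ae_exists {P : ℝ → Prop} (h : ∀ᵐ s : ℝ, P s) {a b : ℝ} (hab : a < b) :
    ∃ s, a < s ∧ s < b ∧ P s := by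
  obtain ⟨s, hs1, hs2⟩ := (Measure.dense_of_ae h).exists_mem_open isOpen_Ioo (nonempty_Ioo.2 hab)
  exact ⟨s, hs2.1, hs2.2, hs1⟩

/-- a locally connected compact set is covered by finitely many small continua -/
theorem cover {S : Set ℂ} (hS : IsCompact S) (hlc : ∀ x ∈ S, CIK S x) {η : ℝ} (hη : 0 < η) :
    ∃ T : Set (Set ℂ), T.Finite ∧ S = ⋃₀ T ∧ ∀ t ∈ T, IsCompact t ∧ IsConnected t ∧ t ⊆ S ∧
      diam t < η := by
  classical
  have h1 : ∀ x : ℂ, ∃ δ : ℝ, x ∈ S → 0 < δ ∧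
      S ∩ ball x δ ⊆ connectedComponentIn (S ∩ closedBall x (η / 4)) x := by
    intro x
    by_cases hx : x ∈ S
    · obtain ⟨δ, hδ, h⟩ := hlc x hx (η / 4) (by linarith)
      refine ⟨δ, fun _ => ⟨hδ, ?_⟩⟩
      rintro y ⟨hy1, hy2⟩
      obtain ⟨C, hC1, hC2, hC3, hC4⟩ := h y hy1 hy2
      exact hC2.subset_connectedComponentIn hC3 (hC1.trans (inter_subset_inter_right _
        ball_subset_closedBall)) hC4
    · exact ⟨0, fun h => absurd h hx⟩
  choose δ hδ using h1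
  obtain ⟨I, hI1, hI2⟩ := hS.elim_nhds_subcover (fun x => ball x (δ x))
    (fun x hx => ball_mem_nhds x (hδ x hx).1)
  refine ⟨(fun x => connectedComponentIn (S ∩ closedBall x (η / 4)) x) '' (I : Set ℂ),
    I.finite_toSet.image _, ?_, ?_⟩
  · apply Subset.antisymm
    · intro y hy
      obtain ⟨x, hx, hyx⟩ := mem_iUnion₂.1 (hI2 hy)
      exact ⟨_, ⟨x, hx, rfl⟩, (hδ x (hI1 x hx)).2 ⟨hy, hyx⟩⟩
    · rintro y ⟨_, ⟨x, hx, rfl⟩, hyt⟩
      exact (connectedComponentIn_subset _ _ hyt).1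
  · rintro _ ⟨x, hx, rfl⟩
    have hxS := hI1 x hx
    have hxF : x ∈ S ∩ closedBall x (η / 4) := ⟨hxS, mem_closedBall_self (by linarith)⟩
    have hFc : IsCompact (S ∩ closedBall x (η / 4)) := hS.inter_right isClosed_closedBall
    refine ⟨?_, ⟨⟨x, mem_connectedComponentIn hxF⟩, isPreconnected_connectedComponentIn⟩,
      fun y hy => (connectedComponentIn_subset _ _ hy).1, ?_⟩
    · show IsCompact (connectedComponentIn (S ∩ closedBall x (η / 4)) x)
      rw [connectedComponentIn_eq_image hxF]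
      have : CompactSpace ↥(S ∩ closedBall x (η / 4)) := isCompact_iff_compactSpace.1 hFc
      exact isClosed_connectedComponent.isCompact.image continuous_subtype_val
    · have h2 : diam (connectedComponentIn (S ∩ closedBall x (η / 4)) x) ≤
          diam (closedBall x (η / 4)) :=
        diam_mono (fun y hy => (connectedComponentIn_subset _ _ hy).2) isBounded_closedBall
      have h3 : diam (closedBall x (η / 4)) ≤ 2 * (η / 4) := diam_closedBall (by linarith)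
      linarith

/-- In a locally connected continuum any two points are separated by finitely many small
subcontinua. -/
theorem pinch_of_lc {X : Set ℂ} (hX : IsCompact X) (hlc : ∀ x ∈ X, CIK X x) {a b : ℂ}
    (hab : a ≠ b) {η : ℝ} (hη : 0 < η) : Pinch X η a b := by
  obtain ⟨r, hr⟩ : ∃ r, r = dist a b / 2 := ⟨_, rfl⟩
  have hr0 : 0 < r := by
    rw [hr]
    have := dist_pos.2 hab
    linarith
  obtain ⟨T, hT1, hT2, hT3⟩ := cover hX hlc (lt_min hη hr0)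
  refine ⟨{t | t ∈ T ∧ ∃ x ∈ t, dist x a = r}, hT1.subset fun t ht => ht.1, fun t ht => ?_,
    ball a r, (closedBall a r)ᶜ, isOpen_ball, isClosed_closedBall.isOpen_compl, ?_, ?_, ?_, ?_⟩
  · obtain ⟨h1, h2, h3, h4⟩ := hT3 t ht.1
    exact ⟨h1, h2, h3, h4.trans_le (min_le_left _ _)⟩
  · rintro x ⟨hx1, hx2⟩
    rcases lt_trichotomy (dist x a) r with h | h | h
    · exact Or.inl h
    · exfalso
      rw [hT2] at hx1
      obtain ⟨t, ht, hxt⟩ := hx1
      exact hx2 ⟨t, ⟨ht, x, hxt, h⟩, hxt⟩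
    · right
      rw [mem_compl_iff, mem_closedBall]
      exact not_le.2 h
  · rw [eq_empty_iff_forall_notMem]
    rintro x ⟨_, hx1, hx2⟩
    exact hx2 (ball_subset_closedBall hx1)
  · refine ⟨mem_ball_self hr0, ?_⟩
    rintro ⟨t, ⟨ht, x, hxt, hxa⟩, hat⟩
    obtain ⟨h1, h2, h3, h4⟩ := hT3 t ht
    have h5 := dist_le_diam_of_mem h1.isBounded hxt hat
    have h6 := h4.trans_le (min_le_right η r)
    linarith
  · refine ⟨?_, ?_⟩
    · rw [mem_compl_iff, mem_closedBall, not_le, dist_comm]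
      linarith
    · rintro ⟨t, ⟨ht, x, hxt, hxa⟩, hbt⟩
      obtain ⟨h1, h2, h3, h4⟩ := hT3 t ht
      have h5 := dist_le_diam_of_mem h1.isBounded hxt hbt
      have h6 := h4.trans_le (min_le_right η r)
      have h7 := dist_triangle a x b
      rw [dist_comm a x] at h7
      linarith

/-- **A failure of local connectivity.** `G` is a class of boundary points such that almost every
circle meets the boundary in points of the class only. -/
theorem structure_of_failure {X : Set ℂ} (hX : IsCompact X) (hc : IsPreconnected X) {G : ℂ → Prop}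
    (hG : ∀ p : ℂ, ∀ᵐ s : ℝ, ∀ c ∈ frontier X, dist c p = s → G c) {p : ℂ} (h : ¬ CIK X p) :
    ∃ (ε : ℝ) (Y : Set ℂ), 0 < ε ∧ Y ⊆ frontier X ∧ IsCompact Y ∧ IsConnected Y ∧ p ∈ Y ∧
      (∀ z ∈ Y, ¬ CIK X z) ∧ {z | z ∈ Y ∧ ¬ IsPreconnected (X \ {z})}.Countable ∧
      (∀ᵐ s : ℝ, 0 < s → s < ε → (∃ z ∈ Y, dist z p = s) ∧
        ∀ z ∈ Y, dist z p = s → G z ∧ IsPreconnected (X \ {z})) ∧
      (∀ a ∈ Y, ∀ b ∈ Y, ¬ Pinch X ε a b) ∧ ∀ a ∈ Y, ∀ b ∈ Y, ¬ Cutoff X a b := by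
  obtain ⟨ε, Y, hε, hYX, hYc, hYp, hpY, hcirc, hYn, hsep⟩ := failure hX hc h
  have hYf : Y ⊆ frontier X := fun z hz => ⟨subset_closure (hYX hz),
    fun hi => hYn z hz (cik_of_interior hi)⟩
  have hcount : {z | z ∈ Y ∧ ¬ IsPreconnected (X \ {z})}.Countable := by
    apply cut_countable hc hYX
    intro c hcY U V hU hV hcov hdis
    refine hsep {c} {{c}} (finite_singleton _) (by rw [sUnion_singleton]) ?_ U V hU hV hcov hdis
    intro t ht
    rw [mem_singleton_iff] at ht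
    rw [ht]
    refine ⟨isPreconnected_singleton, singleton_subset_iff.2 (hYX hcY), ?_⟩
    intro x hx y hy
    rw [mem_singleton_iff] at hx hy
    rw [hx, hy, dist_self]
    exact hε.le
  have hpin : ∀ T : Set (Set ℂ), T.Finite → (∀ t ∈ T, IsCompact t ∧ IsConnected t ∧ t ⊆ X ∧
      diam t < ε) → ∀ a ∈ Y, ∀ b ∈ Y, ¬ Sep X (⋃₀ T) a b := by
    rintro T hT hTp a ha b hb ⟨U, V, hU, hV, hcov, hdis, haU, hbV⟩
    have h1 := hsep (⋃₀ T) T hT Subset.rfl (fun t ht => by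
      obtain ⟨h1, h2, h3, h4⟩ := hTp t ht
      exact ⟨h2.isPreconnected, h3, fun x hx y hy =>
        (dist_le_diam_of_mem h1.isBounded hx hy).trans h4.le⟩) U V hU hV hcov hdis
    rw [eq_empty_iff_forall_notMem] at hdis
    rcases h1 with h1 | h1
    · exact hdis b ⟨⟨hYX hb, hbV.2⟩, h1 ⟨hb, hbV.2⟩, hbV.1⟩
    · exact hdis a ⟨⟨hYX ha, haU.2⟩, haU.1, h1 ⟨ha, haU.2⟩⟩
  refine ⟨ε, Y, hε, hYf, hYc, ⟨⟨p, hpY⟩, hYp⟩, hpY, hYn, hcount, ?_, ?_, ?_⟩
  · have h2 : ∀ᵐ s : ℝ, s ∉ (fun z => dist z p) '' {z | z ∈ Y ∧ ¬ IsPreconnected (X \ {z})} := by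
      have h3 := (hcount.image (fun z => dist z p)).measure_zero volume
      rw [measure_eq_zero_iff_ae_notMem] at h3
      exact h3
    filter_upwards [hG p, h2] with s hs1 hs2 hs0 hsε
    refine ⟨hcirc s hs0 hsε, fun z hz hzs => ⟨hs1 z (hYf hz) hzs, ?_⟩⟩
    by_contra hcon
    exact hs2 ⟨z, ⟨hz, hcon⟩, hzs⟩
  · rintro a ha b hb ⟨T, hT1, hT2, hT3⟩
    exact hpin T hT1 hT2 a ha b hb hT3
  · rintro a ha b hb ⟨S, hS1, hS2, hS3, hS4⟩
    obtain ⟨T, hT1, hT2, hT3⟩ := cover hS1 (lcs_iff.1 hS2) hε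
    refine hpin T hT1 (fun t ht => ?_) a ha b hb (by rw [← hT2]; exact hS4)
    obtain ⟨h1, h2, h3, h4⟩ := hT3 t ht
    exact ⟨h1, h2, h3.trans hS3, h4⟩

/-- The end points of the class `G`: the points of the class at which the continuum `X` is not
cut. -/
def Ends (X : Set ℂ) (G : ℂ → Prop) : Set ℂ :=
  {c | c ∈ frontier X ∧ G c ∧ IsPreconnected (X \ {c})}

/-- local criterion -/
theorem local_crit {X : Set ℂ} (hX : IsCompact X) (hc : IsPreconnected X) {G : ℂ → Prop}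
    (hG : ∀ p : ℂ, ∀ᵐ s : ℝ, ∀ c ∈ frontier X, dist c p = s → G c) {p : ℂ} {ρ : ℝ} (hρ : 0 < ρ)
    (h : ∀ c ∈ Ends X G, c ≠ p → dist c p < ρ → CIK X c ∨ Cutoff X c p) : CIK X p := by
  by_contra hcon
  obtain ⟨ε, Y, hε, hYf, hYc, hYn, hpY, hY1, hY2, hY3, hY4, hY5⟩ := structure_of_failure hX hc hG hcon
  obtain ⟨s, hs0, hs1, hs2⟩ := ae_exists hY3 (lt_min hε hρ)
  obtain ⟨⟨z, hz, hzs⟩, hs4⟩ := hs2 hs0 (hs1.trans_le (min_le_left _ _))
  obtain ⟨h1, h2⟩ := hs4 z hz hzs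
  rcases h z ⟨hYf hz, h1, h2⟩ (by
    rintro rfl
    rw [dist_self] at hzs
    linarith) (by
    rw [hzs]
    exact hs1.trans_le (min_le_right _ _)) with h3 | h3
  · exact hY1 z hz h3
  · exact hY5 z hz p hpY h3

/-- two different good end points in the continuum of failure -/
theorem two_ends {X : Set ℂ} (hX : IsCompact X) (hc : IsPreconnected X) {G : ℂ → Prop}
    (hG : ∀ p : ℂ, ∀ᵐ s : ℝ, ∀ c ∈ frontier X, dist c p = s → G c)
    (h : ¬ LocallyConnectedSpace X) : ∃ ε : ℝ, 0 < ε ∧ ∃ a ∈ Ends X G, ∃ b ∈ Ends X G, a ≠ b ∧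
      ¬ Pinch X ε a b ∧ ¬ Cutoff X a b := by
  rw [lcs_iff] at h
  push Not at h
  obtain ⟨p, hp, hcon⟩ := h
  obtain ⟨ε, Y, hε, hYf, hYc, hYn, hpY, hY1, hY2, hY3, hY4, hY5⟩ := structure_of_failure hX hc hG hcon
  obtain ⟨s, hs0, hs1, hs2⟩ := ae_exists hY3 (show (0 : ℝ) < ε / 2 by linarith)
  obtain ⟨⟨z, hz, hzs⟩, hs4⟩ := hs2 hs0 (by linarith)
  obtain ⟨h1, h2⟩ := hs4 z hz hzs
  obtain ⟨s', hs0', hs1', hs2'⟩ := ae_exists hY3 (show ε / 2 < ε by linarith)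
  obtain ⟨⟨z', hz', hzs'⟩, hs4'⟩ := hs2' (by linarith) hs1'
  obtain ⟨h1', h2'⟩ := hs4' z' hz' hzs'
  refine ⟨ε, hε, z, ⟨hYf hz, h1, h2⟩, z', ⟨hYf hz', h1', h2'⟩, ?_, hY4 z hz z' hz', hY5 z hz z' hz'⟩
  rintro rfl
  linarith

end Pool.Agent.H7M.Fail
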