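import Mathlib

set_option autoImplicit false

/-! # The staircase: backward orbits and the fixed point -/

namespace Pool.Agent.H7M.St

open Set Metric Filter Topology Complex

/-- `n (exp (w / n) - 1)` -/
noncomputable def phi (n : ℕ) (w : ℂ) : ℂ := n * (Complex.exp (w / n) - 1)

/-- the backward orbit -/
noncomputable def vv (n : ℕ) : ℕ → ℂ → ℂ
  | 0, τ => Real.log n + Real.pi * I - Complex.log τ
  | i + 1, τ => Complex.log (phi n (vv n i τ)) - Complex.log τ

/-- the iterated logarithms and their sizes -/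
structure Hyp (n m : ℕ) (R : ℕ → ℝ) (a : ℝ) : Prop where
  h0 : R 0 = Real.log n
  hs : ∀ i, i < m → R (i + 1) = Real.log (R i)
  ha : R m = a
  hge : ∀ i, i ≤ m → a ≤ R i
  hle : ∀ i, i ≤ m → R i ≤ Real.log n
  big : 32 * (Real.log a + 9) ≤ a
  one : 1 ≤ a
  hn : (2 * Real.log n) ^ 2 ≤ n / 2

variable {n m : ℕ} {R : ℕ → ℝ} {a : ℝ}

theorem Hyp.loga (h : Hyp n m R a) : 0 ≤ Real.log a := Real.log_nonneg h.one

theorem Hyp.a_big (h : Hyp n m R a) : 288 ≤ a := by
  have := h.loga
  have := h.big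
  linarith

theorem Hyp.a_le (h : Hyp n m R a) : a ≤ Real.log n := by
  have := h.hle m le_rfl
  rwa [h.ha] at this

theorem Hyp.n_pos (h : Hyp n m R a) : (0 : ℝ) < n := by
  have h1 := h.hn
  have h2 := h.a_le
  have h3 := h.a_big
  nlinarith

theorem Hyp.two_log_le (h : Hyp n m R a) : 2 * Real.log n ≤ n / 2 := by
  have h1 := h.hn
  have h2 := h.a_le
  have h3 := h.a_big
  nlinarith

/-- `phi` is close to the identity -/
theorem phi_sub (h : Hyp n m R a) {w : ℂ} (hw : ‖w‖ ≤ 2 * Real.log n) : ‖phi n w - w‖ ≤ 1 / 2 := by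
  have hn0 := h.n_pos
  have hnC : (n : ℂ) ≠ 0 := by
    intro h'
    have : (n : ℝ) = 0 := by exact_mod_cast h'
    linarith
  have h1 : ‖w / n‖ ≤ 1 := by
    rw [norm_div, Complex.norm_natCast, div_le_one hn0]
    have := h.two_log_le
    linarith
  have h2 := Complex.norm_exp_sub_one_sub_id_le h1
  have h3 : phi n w - w = n * (Complex.exp (w / n) - 1 - w / n) := by
    unfold phi
    field_simp
  rw [h3, norm_mul, Complex.norm_natCast]
  have h4 : ‖w / (n : ℂ)‖ ^ 2 = ‖w‖ ^ 2 / n ^ 2 := by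
    rw [norm_div, Complex.norm_natCast, div_pow]
  rw [h4] at h2
  have h5 : ‖w‖ ^ 2 ≤ (2 * Real.log n) ^ 2 := pow_le_pow_left₀ (norm_nonneg _) hw 2
  calc (n : ℝ) * ‖Complex.exp (w / n) - 1 - w / n‖ ≤ n * (‖w‖ ^ 2 / n ^ 2) :=
        mul_le_mul_of_nonneg_left h2 hn0.le
    _ = ‖w‖ ^ 2 / n := by field_simp
    _ ≤ 1 / 2 := by
        rw [div_le_iff₀ hn0]
        have := h.hn
        linarith

/-- the logarithm on the ball -/
theorem log_tau (h : Hyp n m R a) {τ : ℂ} (hτ : τ ∈ ball (a : ℂ) (3 / 4 * a)) :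
    a / 4 < τ.re ∧ ‖τ‖ < 2 * a ∧ ‖Complex.log τ‖ ≤ Real.log a + 3 := by
  have ha := h.a_big
  rw [mem_ball, dist_eq_norm] at hτ
  have h1 : |τ.re - a| < 3 / 4 * a := by
    have h2 := Complex.abs_re_le_norm (τ - a)
    rw [Complex.sub_re, Complex.ofReal_re] at h2
    linarith
  have hre : a / 4 < τ.re := by
    have := (abs_lt.1 h1).1
    linarith
  have hnorm : ‖τ‖ < 2 * a := by
    have h2 := norm_add_le (τ - a) (a : ℂ)
    rw [sub_add_cancel, Complex.norm_real, Real.norm_eq_abs, abs_of_pos (by linarith)] at h2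
    linarith
  have hnorm2 : a / 4 < ‖τ‖ := hre.trans_le ((le_abs_self _).trans (Complex.abs_re_le_norm τ))
  refine ⟨hre, hnorm, ?_⟩
  refine (Complex.norm_le_abs_re_add_abs_im _).trans ?_
  rw [Complex.log_re, Complex.log_im]
  have h3 : |τ.arg| ≤ Real.pi / 2 :=
    Complex.abs_arg_le_pi_div_two_iff.mpr (by linarith)
  have hpi : Real.pi < 3.15 := Real.pi_lt_d2
  have h4 : Real.log ‖τ‖ ≤ Real.log a + Real.log 2 := by
    rw [← Real.log_mul (by linarith) (by norm_num)]
    exact Real.log_le_log (by linarith) (by linarith)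
  have h5 : 0 ≤ Real.log ‖τ‖ := Real.log_nonneg (by linarith)
  have h6 := Real.log_two_lt_d9
  rw [abs_of_nonneg h5]
  linarith

/-- the backward orbit stays close to the iterated logarithms -/
theorem vbound (h : Hyp n m R a) {τ : ℂ} (hτ : τ ∈ ball (a : ℂ) (3 / 4 * a)) :
    ∀ i, i ≤ m → ‖vv n i τ - R i‖ ≤ Real.log a + 7 := by
  obtain ⟨h1, h2, h3⟩ := log_tau h hτ
  have ha := h.a_big
  have hb := h.big
  have hla := h.loga
  intro i
  induction i with
  | zero =>
    intro _
    have e1 : vv n 0 τ - R 0 = Real.pi * I - Complex.log τ := by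
      rw [h.h0]
      show (Real.log n : ℂ) + Real.pi * I - Complex.log τ - Real.log n = _
      ring
    rw [e1]
    have h4 := norm_sub_le (Real.pi * I : ℂ) (Complex.log τ)
    have h5 : ‖(Real.pi * I : ℂ)‖ = Real.pi := by
      rw [norm_mul, Complex.norm_I, mul_one, Complex.norm_real, Real.norm_eq_abs,
        abs_of_pos Real.pi_pos]
    have hpi : Real.pi < 3.15 := Real.pi_lt_d2
    rw [h5] at h4
    linarith
  | succ i ih =>
    intro hi
    have hi' : i ≤ m := by omega
    have hw := ih hi'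
    obtain ⟨w, hw'⟩ : ∃ w, w = vv n i τ := ⟨_, rfl⟩
    rw [← hw'] at hw
    have hRi := h.hge i hi'
    have hRi2 := h.hle i hi'
    have hR0 : 0 < R i := by linarith
    have hwn : ‖w‖ ≤ 2 * Real.log n := by
      have h4 := norm_add_le (w - R i) (R i : ℂ)
      rw [sub_add_cancel, Complex.norm_real, Real.norm_eq_abs, abs_of_pos hR0] at h4
      have := h.a_le
      linarith
    have h5 := phi_sub h hwn
    have h6 : ‖phi n w - R i‖ ≤ Real.log a + 8 := by
      have h7 := norm_add_le (phi n w - w) (w - R i)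
      rw [sub_add_sub_cancel] at h7
      linarith
    obtain ⟨e, he⟩ : ∃ e : ℂ, e = (phi n w - R i) / R i := ⟨_, rfl⟩
    have hRC : (R i : ℂ) ≠ 0 := by exact_mod_cast hR0.ne'
    have he1 : ‖e‖ ≤ 1 / 32 := by
      rw [he, norm_div, Complex.norm_real, Real.norm_eq_abs, abs_of_pos hR0, div_le_iff₀ hR0]
      linarith
    have he2 : phi n w = (R i : ℂ) * (1 + e) := by
      rw [he]
      field_simp
      ring
    have he3 : 1 + e ≠ 0 := by
      intro h'
      have h8 : e = -1 := by linear_combination h'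
      rw [h8, norm_neg, norm_one] at he1
      norm_num at he1
    have h9 := Complex.norm_log_one_add_half_le_self (z := e) (by linarith)
    have e2 : vv n (i + 1) τ - R (i + 1) = Complex.log (1 + e) - Complex.log τ := by
      rw [h.hs i (by omega)]
      show Complex.log (phi n (vv n i τ)) - Complex.log τ - Real.log (R i) = _
      rw [← hw', he2, Complex.log_ofReal_mul hR0 he3]
      ring
    rw [e2]
    have h10 := norm_sub_le (Complex.log (1 + e)) (Complex.log τ)
    linarith

theorem vnorm (h : Hyp n m R a) {τ : ℂ} (hτ : τ ∈ ball (a : ℂ) (3 / 4 * a)) {i : ℕ} (hi : i ≤ m) :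
    ‖vv n i τ‖ ≤ 2 * Real.log n := by
  have ha := h.a_big
  have hb := h.big
  have hla := h.loga
  have hRi := h.hge i hi
  have hRi2 := h.hle i hi
  have hw := vbound h hτ i hi
  have h4 := norm_add_le (vv n i τ - R i) (R i : ℂ)
  rw [sub_add_cancel, Complex.norm_real, Real.norm_eq_abs, abs_of_pos (by linarith)] at h4
  have := h.a_le
  linarith

/-- `phi` of the backward orbit -/
theorem phi_bound (h : Hyp n m R a) {τ : ℂ} (hτ : τ ∈ ball (a : ℂ) (3 / 4 * a)) {i : ℕ}
    (hi : i ≤ m) : ‖phi n (vv n i τ) - R i‖ ≤ Real.log a + 8 := by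
  have h5 := phi_sub h (vnorm h hτ hi)
  have h6 := vbound h hτ i hi
  have h7 := norm_add_le (phi n (vv n i τ) - vv n i τ) (vv n i τ - R i)
  rw [sub_add_sub_cancel] at h7
  linarith

theorem phi_re (h : Hyp n m R a) {τ : ℂ} (hτ : τ ∈ ball (a : ℂ) (3 / 4 * a)) {i : ℕ}
    (hi : i ≤ m) : R i - (Real.log a + 8) ≤ (phi n (vv n i τ)).re := by
  have h1 := (Complex.abs_re_le_norm _).trans (phi_bound h hτ hi)
  rw [Complex.sub_re, Complex.ofReal_re] at h1
  have := (abs_le.1 h1).1
  linarith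

theorem phi_re_pos (h : Hyp n m R a) {τ : ℂ} (hτ : τ ∈ ball (a : ℂ) (3 / 4 * a)) {i : ℕ}
    (hi : i ≤ m) : 0 < (phi n (vv n i τ)).re := by
  have h1 := phi_re h hτ hi
  have h2 := h.hge i hi
  have h3 := h.big
  have h4 := h.loga
  linarith

theorem differentiableOn_vv (h : Hyp n m R a) : ∀ i, i ≤ m →
    DifferentiableOn ℂ (vv n i) (ball (a : ℂ) (3 / 4 * a)) := by
  have ha := h.a_big
  have hlog : DifferentiableOn ℂ Complex.log (ball (a : ℂ) (3 / 4 * a)) := by
    intro τ hτ
    refine (Complex.differentiableAt_log (Or.inl ?_)).differentiableWithinAt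
    have := (log_tau h hτ).1
    linarith
  intro i
  induction i with
  | zero =>
    intro _
    exact (differentiableOn_const _).sub hlog
  | succ i ih =>
    intro hi
    have hi' : i ≤ m := by omega
    have h1 := ih hi'
    have h2 : DifferentiableOn ℂ (fun τ => phi n (vv n i τ)) (ball (a : ℂ) (3 / 4 * a)) := by
      unfold phi
      exact (((h1.div_const _).cexp).sub_const 1).const_mul _
    have h3 : DifferentiableOn ℂ (fun τ => Complex.log (phi n (vv n i τ)))
        (ball (a : ℂ) (3 / 4 * a)) :=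
      h2.clog fun τ hτ => Or.inl (phi_re_pos h hτ hi')
    exact h3.sub hlog

/-- the fixed point -/
theorem exists_fixed (h : Hyp n m R a) : ∃ τ ∈ ball (a : ℂ) (3 / 4 * a), phi n (vv n m τ) = τ ∧
    ‖τ - a‖ ≤ Real.log a + 8 := by
  have ha := h.a_big
  have hb := h.big
  have hla := h.loga
  obtain ⟨F, hF⟩ : ∃ F : ℂ → ℂ, F = fun τ => phi n (vv n m τ) := ⟨_, rfl⟩
  have hbd : ∀ τ ∈ ball (a : ℂ) (3 / 4 * a), ‖F τ - a‖ ≤ Real.log a + 8 := by
    intro τ hτ
    have h1 := phi_bound h hτ (le_refl m)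
    rw [h.ha] at h1
    rw [hF]
    exact h1
  have hd : DifferentiableOn ℂ F (ball (a : ℂ) (3 / 4 * a)) := by
    rw [hF]
    unfold phi
    exact ((((differentiableOn_vv h m le_rfl).div_const _).cexp).sub_const 1).const_mul _
  have hsub : closedBall (a : ℂ) (a / 2) ⊆ ball (a : ℂ) (3 / 4 * a) :=
    closedBall_subset_ball (by linarith)
  have hder : ∀ τ ∈ closedBall (a : ℂ) (a / 2), ‖deriv F τ‖ ≤ 1 / 2 := by
    intro τ hτ
    have hsub2 : closedBall τ (a / 8) ⊆ ball (a : ℂ) (3 / 4 * a) := by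
      intro z hz
      rw [mem_closedBall] at hz hτ
      rw [mem_ball]
      have := dist_triangle z τ a
      linarith
    have hd1 : DifferentiableOn ℂ (fun z => F z - a) (closedBall τ (a / 8)) :=
      (hd.mono hsub2).sub_const _
    have h1 := Complex.norm_deriv_le_of_forall_mem_sphere_norm_le (f := fun z => F z - a) (c := τ)
      (R := a / 8) (C := a / 32) (by linarith) (hd1.diffContOnCl_ball Subset.rfl) (by
        intro z hz
        have := hbd z (hsub2 (sphere_subset_closedBall hz))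
        linarith)
    rw [deriv_sub_const] at h1
    refine h1.trans ?_
    rw [div_div, div_le_iff₀ (by linarith)]
    linarith
  have hlip : LipschitzOnWith (1 / 2 : NNReal) F (closedBall (a : ℂ) (a / 2)) := by
    apply Convex.lipschitzOnWith_of_nnnorm_deriv_le (𝕜 := ℂ) _ _ (convex_closedBall _ _)
    · intro τ hτ
      exact (hd τ (hsub hτ)).differentiableAt (isOpen_ball.mem_nhds (hsub hτ))
    · intro τ hτ
      rw [← NNReal.coe_le_coe, coe_nnnorm]
      simpa using hder τ hτ
  have hmaps : MapsTo F (closedBall (a : ℂ) (a / 2)) (closedBall (a : ℂ) (a / 2)) := by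
    intro τ hτ
    rw [mem_closedBall, dist_eq_norm]
    have := hbd τ (hsub hτ)
    linarith
  have hcontr : ContractingWith (1 / 2 : NNReal) (hmaps.restrict F _ _) := by
    refine ⟨?_, hlip.mapsToRestrict hmaps⟩
    rw [← NNReal.coe_lt_coe]; push_cast; norm_num
  obtain ⟨τ, hτK, hτ, -⟩ := ContractingWith.exists_fixedPoint' isClosed_closedBall.isComplete hmaps
    hcontr (mem_closedBall_self (by linarith)) (edist_ne_top _ _)
  have hfix : F τ = τ := hτ
  refine ⟨τ, hsub hτK, ?_, ?_⟩
  · rw [hF] at hfix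
    exact hfix
  · have := hbd τ (hsub hτK)
    rwa [hfix] at this

end Pool.Agent.H7M.St
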