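import Mathlib
import Pool.Agent.H7M.St1

set_option autoImplicit false

/-! # The staircase: the critical orbit and the argument -/

namespace Pool.Agent.H7M.St

open Set Metric Filter Topology Complex

variable {n m : ℕ} {R : ℕ → ℝ} {a : ℝ}

/-- the normalised critical orbit -/
noncomputable def gg (n : ℕ) (u : ℂ) : ℕ → ℂ
  | 0 => 1
  | i + 1 => 1 + u * (gg n u i) ^ n

theorem gg_eq (h : Hyp n m R a) {τ : ℂ} (hτ : τ ∈ ball (a : ℂ) (3 / 4 * a))
    (hfix : phi n (vv n m τ) = τ) : ∀ i, i ≤ m →
      gg n (τ / n) (i + 1) = Complex.exp (vv n (m - i) τ / n) := by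
  have hn0 := h.n_pos
  have hnC : (n : ℂ) ≠ 0 := by
    intro h'
    have : (n : ℝ) = 0 := by exact_mod_cast h'
    linarith
  have hτ0 : τ ≠ 0 := by
    rintro rfl
    have h1 := (log_tau h hτ).1
    have h2 := h.a_big
    rw [Complex.zero_re] at h1
    linarith
  intro i
  induction i with
  | zero =>
    intro _
    show 1 + τ / n * (gg n (τ / n) 0) ^ n = _
    have h1 : gg n (τ / n) 0 = 1 := rfl
    rw [h1, one_pow, mul_one, Nat.sub_zero]
    have h2 : τ / n = Complex.exp (vv n m τ / n) - 1 := by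
      rw [div_eq_iff hnC, mul_comm]
      exact hfix.symm
    rw [h2]
    ring
  | succ i ih =>
    intro hi
    have h1 := ih (by omega)
    show 1 + τ / n * (gg n (τ / n) (i + 1)) ^ n = _
    rw [h1, ← Complex.exp_nat_mul, mul_div_cancel₀ _ hnC]
    obtain ⟨j, hj⟩ : ∃ j, m - i = j + 1 := ⟨m - i - 1, by omega⟩
    have hj2 : m - (i + 1) = j := by omega
    rw [hj, hj2]
    have h2 : vv n (j + 1) τ = Complex.log (phi n (vv n j τ)) - Complex.log τ := rfl
    have h3 : phi n (vv n j τ) ≠ 0 := by
      intro h'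
      have h4 := phi_re_pos h hτ (show j ≤ m by omega)
      rw [h', Complex.zero_re] at h4
      exact lt_irrefl _ h4
    rw [h2, Complex.exp_sub, Complex.exp_log h3, Complex.exp_log hτ0]
    unfold phi
    field_simp
    ring

theorem gg_last (h : Hyp n m R a) {τ : ℂ} (hτ : τ ∈ ball (a : ℂ) (3 / 4 * a))
    (hfix : phi n (vv n m τ) = τ) : gg n (τ / n) (m + 2) = 0 := by
  have hn0 := h.n_pos
  have hnC : (n : ℂ) ≠ 0 := by
    intro h'
    have : (n : ℝ) = 0 := by exact_mod_cast h'
    linarith
  have hτ0 : τ ≠ 0 := by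
    rintro rfl
    have h1 := (log_tau h hτ).1
    have h2 := h.a_big
    rw [Complex.zero_re] at h1
    linarith
  have h1 := gg_eq h hτ hfix m le_rfl
  show 1 + τ / n * (gg n (τ / n) (m + 1)) ^ n = 0
  rw [h1, ← Complex.exp_nat_mul, mul_div_cancel₀ _ hnC, Nat.sub_self]
  have h2 : vv n 0 τ = Real.log n + Real.pi * I - Complex.log τ := rfl
  rw [h2, Complex.exp_sub, Complex.exp_add, Complex.exp_pi_mul_I, Complex.exp_log hτ0,
    ← Complex.ofReal_exp, Real.exp_log hn0]
  push_cast
  field_simp
  ring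

theorem phi_im (n : ℕ) (w : ℂ) : (phi n w).im = n * (Real.exp (w.re / n) * Real.sin (w.im / n)) := by
  have h1 : phi n w = ((n : ℝ) : ℂ) * (Complex.exp (w / ((n : ℝ) : ℂ)) - 1) := by
    unfold phi
    push_cast
    rfl
  rw [h1, Complex.im_ofReal_mul, Complex.sub_im, Complex.one_im, sub_zero, Complex.exp_im,
    Complex.div_ofReal_re, Complex.div_ofReal_im]

/-- the sign of the imaginary part of `phi` -/
theorem phi_im_pos (hn : (0 : ℝ) < n) {w : ℂ} (hw : ‖w‖ ≤ n) (h : 0 < w.im) : 0 < (phi n w).im := by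
  rw [phi_im]
  have h1 : w.im ≤ n := (le_abs_self _).trans ((Complex.abs_im_le_norm w).trans hw)
  have h2 : 0 < w.im / n := div_pos h hn
  have h3 : w.im / n ≤ 1 := (div_le_one hn).2 h1
  have h4 : 0 < Real.sin (w.im / n) := Real.sin_pos_of_pos_of_le_one h2 h3
  positivity

theorem phi_im_nonpos (hn : (0 : ℝ) < n) {w : ℂ} (hw : ‖w‖ ≤ n) (h : w.im ≤ 0) :
    (phi n w).im ≤ 0 := by
  rw [phi_im]
  have h1 : -(w.im) ≤ n := (neg_le_abs _).trans ((Complex.abs_im_le_norm w).trans hw)
  have h2 : w.im / n ≤ 0 := div_nonpos_of_nonpos_of_nonneg h hn.le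
  have h3 : -(w.im / n) ≤ 1 := by
    rw [← neg_div]
    exact (div_le_one hn).2 h1
  have h4 : Real.sin (w.im / n) ≤ 0 := by
    apply Real.sin_nonpos_of_nonpos_of_neg_pi_le h2
    have := Real.pi_gt_three
    linarith
  have h5 : Real.exp (w.re / n) * Real.sin (w.im / n) ≤ 0 :=
    mul_nonpos_of_nonneg_of_nonpos (Real.exp_pos _).le h4
  exact mul_nonpos_of_nonneg_of_nonpos hn.le h5

theorem phi_im_le (hn : (0 : ℝ) < n) {w : ℂ} (h : 0 ≤ w.im) :
    (phi n w).im ≤ Real.exp (w.re / n) * w.im := by
  rw [phi_im]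
  have h1 : Real.sin (w.im / n) ≤ w.im / n := Real.sin_le (div_nonneg h hn.le)
  calc (n : ℝ) * (Real.exp (w.re / n) * Real.sin (w.im / n)) ≤
        n * (Real.exp (w.re / n) * (w.im / n)) := by gcongr
    _ = _ := by field_simp

theorem arg_le {z : ℂ} (hre : 0 < z.re) (him : 0 ≤ z.im) : z.arg ≤ z.im / z.re := by
  have h1 : 0 ≤ z.arg := Complex.arg_nonneg_iff.2 him
  have h2 : |z.arg| < Real.pi / 2 := Complex.abs_arg_lt_pi_div_two_iff.2 (Or.inl hre)
  rw [abs_of_nonneg h1] at h2
  have h3 := Real.le_tan h1 h2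
  rwa [Complex.tan_arg] at h3

theorem im_vv_succ (n i : ℕ) (τ : ℂ) :
    (vv n (i + 1) τ).im = (phi n (vv n i τ)).arg - τ.arg := by
  have : vv n (i + 1) τ = Complex.log (phi n (vv n i τ)) - Complex.log τ := rfl
  rw [this, Complex.sub_im, Complex.log_im, Complex.log_im]

theorem im_vv_zero (n : ℕ) (τ : ℂ) : (vv n 0 τ).im = Real.pi - τ.arg := by
  have : vv n 0 τ = Real.log n + Real.pi * I - Complex.log τ := rfl
  rw [this]
  simp [Complex.log_im]

theorem pos_all (h : Hyp n m R a) {τ : ℂ} (hτ : τ ∈ ball (a : ℂ) (3 / 4 * a))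
    (hfix : phi n (vv n m τ) = τ) : 0 < τ.im ∧ ∀ i, i ≤ m → 0 < (vv n i τ).im := by
  have hn0 := h.n_pos
  have ha := h.a_big
  have hre : 0 < τ.re := by
    have := (log_tau h hτ).1
    linarith
  have hvn : ∀ i, i ≤ m → ‖vv n i τ‖ ≤ n := by
    intro i hi
    have h1 := vnorm h hτ hi
    have h2 := h.two_log_le
    linarith
  have him : 0 < τ.im := by
    by_contra hcon
    push Not at hcon
    have harg : τ.arg ≤ 0 := by
      rcases hcon.lt_or_eq with h1 | h1
      · exact (Complex.arg_neg_iff.2 h1).le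
      · exact (Complex.arg_eq_zero_iff.2 ⟨hre.le, h1⟩).le
    have key : ∀ j, j ≤ m → (vv n (m - j) τ).im ≤ 0 := by
      intro j
      induction j with
      | zero =>
        intro _
        rw [Nat.sub_zero]
        by_contra h1
        push Not at h1
        have h2 := phi_im_pos hn0 (hvn m le_rfl) h1
        rw [hfix] at h2
        linarith
      | succ j ih =>
        intro hj
        have h1 := ih (by omega)
        obtain ⟨i, hi⟩ : ∃ i, m - j = i + 1 := ⟨m - j - 1, by omega⟩
        have hi2 : m - (j + 1) = i := by omega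
        rw [hi2]
        rw [hi, im_vv_succ] at h1
        by_contra h2
        push Not at h2
        have h3 := phi_im_pos hn0 (hvn i (by omega)) h2
        have h4 : 0 ≤ (phi n (vv n i τ)).arg := Complex.arg_nonneg_iff.2 h3.le
        have h5 : (phi n (vv n i τ)).arg = 0 := by linarith
        have h6 := (Complex.arg_eq_zero_iff.1 h5).2
        linarith
    have h1 := key m le_rfl
    rw [Nat.sub_self, im_vv_zero] at h1
    have := Real.pi_pos
    linarith
  refine ⟨him, ?_⟩
  have harg : 0 ≤ τ.arg := Complex.arg_nonneg_iff.2 him.le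
  have key : ∀ j, j ≤ m → 0 < (vv n (m - j) τ).im := by
    intro j
    induction j with
    | zero =>
      intro _
      rw [Nat.sub_zero]
      by_contra h1
      push Not at h1
      have h2 := phi_im_nonpos hn0 (hvn m le_rfl) h1
      rw [hfix] at h2
      linarith
    | succ j ih =>
      intro hj
      have h1 := ih (by omega)
      obtain ⟨i, hi⟩ : ∃ i, m - j = i + 1 := ⟨m - j - 1, by omega⟩
      have hi2 : m - (j + 1) = i := by omega
      rw [hi2]
      rw [hi, im_vv_succ] at h1
      by_contra h2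
      push Not at h2
      have h3 := phi_im_nonpos hn0 (hvn i (by omega)) h2
      have h4 : (phi n (vv n i τ)).arg ≤ 0 := by
        rcases h3.lt_or_eq with h5 | h5
        · exact (Complex.arg_neg_iff.2 h5).le
        · exact (Complex.arg_eq_zero_iff.2 ⟨(phi_re_pos h hτ (show i ≤ m by omega)).le, h5⟩).le
      linarith
  intro i hi
  have h1 := key (m - i) (by omega)
  have h2 : m - (m - i) = i := by omega
  rwa [h2] at h1

/-- the correction factor -/
noncomputable def cf (n : ℕ) (a : ℝ) : ℝ :=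
  Real.exp (2 * Real.log n / n) / (1 - (Real.log a + 8) / a)

theorem cf_nonneg (h : Hyp n m R a) : 0 ≤ cf n a := by
  have ha := h.a_big
  have hb := h.big
  unfold cf
  apply div_nonneg (Real.exp_pos _).le
  rw [sub_nonneg, div_le_one (by linarith)]
  have := h.loga
  linarith

/-- one step -/
theorem arg_step (h : Hyp n m R a) {τ : ℂ} (hτ : τ ∈ ball (a : ℂ) (3 / 4 * a))
    (hfix : phi n (vv n m τ) = τ) {i : ℕ} (hi : i ≤ m) :
    (phi n (vv n i τ)).arg ≤ cf n a * ((vv n i τ).im / R i) := by
  have hn0 := h.n_pos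
  have ha := h.a_big
  have hb := h.big
  have hla := h.loga
  have hRi := h.hge i hi
  have hR0 : 0 < R i := by linarith
  have hpos := (pos_all h hτ hfix).2 i hi
  have hvn := vnorm h hτ hi
  have h1 := phi_re h hτ hi
  have hfac : 0 < 1 - (Real.log a + 8) / a := by
    rw [sub_pos, div_lt_one (by linarith)]
    linarith
  have h2 : R i * (1 - (Real.log a + 8) / a) ≤ (phi n (vv n i τ)).re := by
    refine le_trans ?_ h1
    rw [mul_sub, mul_one]
    have h3 : Real.log a + 8 ≤ R i * ((Real.log a + 8) / a) := by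
      rw [← mul_div_assoc, le_div_iff₀ (by linarith), mul_comm (R i)]
      exact mul_le_mul_of_nonneg_left hRi (by linarith)
    linarith
  have h4 := phi_im_le hn0 hpos.le
  have hvn' : ‖vv n i τ‖ ≤ n := by
    have := h.two_log_le
    linarith
  have h5 := phi_im_pos hn0 hvn' hpos
  have h6 := arg_le (phi_re_pos h hτ hi) h5.le
  refine h6.trans ?_
  have h7 : Real.exp ((vv n i τ).re / n) ≤ Real.exp (2 * Real.log n / n) := by
    apply Real.exp_le_exp.2
    apply div_le_div_of_nonneg_right _ hn0.le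
    exact (le_abs_self _).trans ((Complex.abs_re_le_norm _).trans hvn)
  calc (phi n (vv n i τ)).im / (phi n (vv n i τ)).re ≤
        (Real.exp (2 * Real.log n / n) * (vv n i τ).im) / (R i * (1 - (Real.log a + 8) / a)) := by
        apply div_le_div₀ (by positivity) _ (by positivity) h2
        exact h4.trans (mul_le_mul_of_nonneg_right h7 hpos.le)
    _ = _ := by
        unfold cf
        field_simp

/-- the argument is small -/
theorem arg_bound (h : Hyp n m R a) {τ : ℂ} (hτ : τ ∈ ball (a : ℂ) (3 / 4 * a))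
    (hfix : phi n (vv n m τ) = τ) :
    τ.arg ≤ Real.pi * cf n a ^ (m + 1) / ∏ j ∈ Finset.range (m + 1), R j := by
  have ha := h.a_big
  have hth := cf_nonneg h
  have harg : 0 ≤ τ.arg := Complex.arg_nonneg_iff.2 (pos_all h hτ hfix).1.le
  have key : ∀ i, i ≤ m → (vv n i τ).im ≤
      Real.pi * cf n a ^ i / ∏ j ∈ Finset.range i, R j := by
    intro i
    induction i with
    | zero =>
      intro _
      rw [im_vv_zero, pow_zero, Finset.range_zero, Finset.prod_empty]
      linarith
    | succ i ih =>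
      intro hi
      have hi' : i ≤ m := by omega
      have hR0 : 0 < R i := by
        have := h.hge i hi'
        linarith
      have h1 := ih hi'
      have h2 := arg_step h hτ hfix hi'
      rw [im_vv_succ, Finset.prod_range_succ, pow_succ]
      have h3 : cf n a * ((vv n i τ).im / R i) ≤
          cf n a * ((Real.pi * cf n a ^ i / ∏ j ∈ Finset.range i, R j) / R i) :=
        mul_le_mul_of_nonneg_left (div_le_div_of_nonneg_right h1 hR0.le) hth
      have h4 : cf n a * ((Real.pi * cf n a ^ i / ∏ j ∈ Finset.range i, R j) / R i) =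
          Real.pi * (cf n a ^ i * cf n a) / ((∏ j ∈ Finset.range i, R j) * R i) := by
        rw [div_div, ← mul_div_assoc]
        congr 1
        ring
      linarith
  have hR0 : 0 < R m := by
    have := h.hge m le_rfl
    linarith
  have h1 := key m le_rfl
  have h2 := arg_step h hτ hfix (le_refl m)
  rw [hfix] at h2
  rw [Finset.prod_range_succ, pow_succ]
  have h3 : cf n a * ((vv n m τ).im / R m) ≤
      cf n a * ((Real.pi * cf n a ^ m / ∏ j ∈ Finset.range m, R j) / R m) :=
    mul_le_mul_of_nonneg_left (div_le_div_of_nonneg_right h1 hR0.le) hth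
  have h4 : cf n a * ((Real.pi * cf n a ^ m / ∏ j ∈ Finset.range m, R j) / R m) =
      Real.pi * (cf n a ^ m * cf n a) / ((∏ j ∈ Finset.range m, R j) * R m) := by
    rw [div_div, ← mul_div_assoc]
    congr 1
    ring
  linarith

end Pool.Agent.H7M.St
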