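import Mathlib
import Pool.Agent.N228.LC.Mod
import Pool.Agent.H7M.St2

set_option autoImplicit false

/-! # The staircase: the parameters -/

namespace Pool.Agent.H7M.St

open Set Metric Filter Topology Complex N62a1eb23 Pool.Agent.H712R2 Pool.Agent.N228.LC

variable {n m : ℕ} {R : ℕ → ℝ} {a : ℝ}

theorem P_gg (hn : n ≠ 0) {x u : ℂ} (hx : x ^ n = x * u) :
    ∀ i, P n (i + 1) x = x * gg n u i := by
  intro i
  induction i with
  | zero =>
    have h1 : gg n u 0 = 1 := rfl
    rw [P_succ, P_zero, h1, zero_pow hn]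
    ring
  | succ i ih =>
    rw [P_succ, ih]
    show (x * gg n u i) ^ n + x = x * (1 + u * (gg n u i) ^ n)
    rw [mul_pow, hx]
    ring

/-- the depth of the point -/
theorem depth_ge (hn : 3 ≤ n) {τ : ℂ} (h1 : 1 ≤ ‖τ‖) :
    (1 - Real.log n / ((n : ℝ) - 1)) * ((Real.log ‖τ‖ + 1) / n) ≤
      ‖Complex.exp ((Complex.log τ - Real.log n) / ((n : ℂ) - 1))‖ - rr n := by
  have hnr : (3 : ℝ) ≤ n := by exact_mod_cast hn
  have hm0 : 0 < (n : ℝ) - 1 := by linarith
  have hn0 : (0 : ℝ) < n := by linarith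
  obtain ⟨q, hq⟩ : ∃ q, q = Real.log n / ((n : ℝ) - 1) := ⟨_, rfl⟩
  have hre : ((Complex.log τ - Real.log n) / ((n : ℂ) - 1)).re =
      -q + Real.log ‖τ‖ / ((n : ℝ) - 1) := by
    have : (Complex.log τ - Real.log n) / ((n : ℂ) - 1) =
        (Complex.log τ - Real.log n) / (((n : ℝ) - 1 : ℝ) : ℂ) := by
      push_cast; rfl
    rw [this, Complex.div_ofReal_re, Complex.sub_re, Complex.log_re, Complex.ofReal_re, hq]
    ring
  rw [Complex.norm_exp, hre, Real.exp_add, ← hq]
  have hrr : rr n = Real.exp (-q) * (1 - 1 / n) := by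
    rw [hq]
    exact rr_eq (by omega)
  rw [hrr]
  have h2 := Real.add_one_le_exp (Real.log ‖τ‖ / ((n : ℝ) - 1))
  have h3 : 0 ≤ Real.log ‖τ‖ := Real.log_nonneg h1
  have h4 : Real.log ‖τ‖ / n ≤ Real.log ‖τ‖ / ((n : ℝ) - 1) :=
    div_le_div_of_nonneg_left h3 hm0 (by linarith)
  have h5 : (Real.log ‖τ‖ + 1) / n ≤ Real.exp (Real.log ‖τ‖ / ((n : ℝ) - 1)) - (1 - 1 / n) := by
    rw [add_div]
    linarith
  have h6 : 1 - q ≤ Real.exp (-q) := by
    have := Real.add_one_le_exp (-q)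
    linarith
  have h7 : 0 ≤ (Real.log ‖τ‖ + 1) / n := by positivity
  calc (1 - q) * ((Real.log ‖τ‖ + 1) / n) ≤ Real.exp (-q) * ((Real.log ‖τ‖ + 1) / n) :=
        mul_le_mul_of_nonneg_right h6 h7
    _ ≤ Real.exp (-q) * (Real.exp (Real.log ‖τ‖ / ((n : ℝ) - 1)) - (1 - 1 / n)) :=
        mul_le_mul_of_nonneg_left h5 (Real.exp_pos _).le
    _ = _ := by ring

/-- one step of the staircase -/
theorem step (h : Hyp n m R a) (hn : 3 ≤ n) : ∃ x : ℂ, P n (m + 3) x = 0 ∧
    P n (m + 3) ((starRingEnd ℂ) x) = 0 ∧ x ≠ 0 ∧ x ≠ (starRingEnd ℂ) x ∧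
    dist x ((starRingEnd ℂ) x) ≤
      2 * Real.pi * cf n a ^ (m + 1) / (((n : ℝ) - 1) * ∏ j ∈ Finset.range (m + 1), R j) ∧
    x ∈ sector (th n 0) (th n (0 + 1)) ∧
    (starRingEnd ℂ) x ∉ sector (th n 0) (th n (0 + 1)) ∧
    (1 - Real.log n / ((n : ℝ) - 1)) * ((Real.log a - 2 * ((Real.log a + 8) / a) + 1) / n) ≤
      ‖x‖ - rr n := by
  have hnr : (3 : ℝ) ≤ n := by exact_mod_cast hn
  have hm0 : 0 < (n : ℝ) - 1 := by linarith
  have hn0 : (0 : ℝ) < n := by linarith
  have hnC : (n : ℂ) ≠ 0 := by exact_mod_cast hn0.ne'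
  have hmC : (n : ℂ) - 1 ≠ 0 := by
    intro h
    have : ((n : ℝ) - 1 : ℝ) = 0 := by exact_mod_cast h
    linarith
  have ha := h.a_big
  have hb := h.big
  have hla := h.loga
  obtain ⟨τ, hτ, hfix, hτa⟩ := exists_fixed h
  obtain ⟨hre, hτn, -⟩ := log_tau h hτ
  obtain ⟨him, -⟩ := pos_all h hτ hfix
  have hτ0 : τ ≠ 0 := by
    rintro rfl
    rw [Complex.zero_re] at hre
    linarith
  have harg0 : 0 < τ.arg := by
    rcases (Complex.arg_nonneg_iff.mpr him.le).lt_or_eq with h1 | h1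
    · exact h1
    · exfalso
      have := (Complex.arg_eq_zero_iff.mp h1.symm).2
      linarith
  have hargpi : τ.arg ≤ Real.pi / 2 := by
    have := Complex.abs_arg_le_pi_div_two_iff.mpr (show 0 ≤ τ.re by linarith)
    exact (le_abs_self _).trans this
  have harg := arg_bound h hτ hfix
  have hpi := Real.pi_pos
  set x : ℂ := Complex.exp ((Complex.log τ - Real.log n) / ((n : ℂ) - 1)) with hx
  have hcast : ((n - 1 : ℕ) : ℂ) = (n : ℂ) - 1 := by
    rw [Nat.cast_sub (by omega)]; simp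
  have hxm : x ^ (n - 1) = τ / n := by
    rw [hx, ← Complex.exp_nat_mul, hcast, mul_div_cancel₀ _ hmC, Complex.exp_sub,
      Complex.exp_log hτ0, ← Complex.ofReal_exp, Real.exp_log hn0]
    push_cast
    rfl
  have hxn : x ^ n = x * (τ / n) := by
    have : x ^ n = x * x ^ (n - 1) := by rw [← pow_succ']; congr 1; omega
    rw [this, hxm]
  have hx0 : x ≠ 0 := Complex.exp_ne_zero _
  have hP : P n (m + 3) x = 0 := by
    rw [P_gg (by omega) hxn (m + 2), gg_last h hτ hfix, mul_zero]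
  have hexp_im : ((Complex.log τ - Real.log n) / ((n : ℂ) - 1)).im = τ.arg / ((n : ℝ) - 1) := by
    have : (Complex.log τ - Real.log n) / ((n : ℂ) - 1) =
        (Complex.log τ - Real.log n) / (((n : ℝ) - 1 : ℝ) : ℂ) := by
      push_cast; rfl
    rw [this, Complex.div_ofReal_im, Complex.sub_im, Complex.log_im, Complex.ofReal_im, sub_zero]
  have hexp_re : ((Complex.log τ - Real.log n) / ((n : ℂ) - 1)).re =
      (Real.log ‖τ‖ - Real.log n) / ((n : ℝ) - 1) := by
    have : (Complex.log τ - Real.log n) / ((n : ℂ) - 1) =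
        (Complex.log τ - Real.log n) / (((n : ℝ) - 1 : ℝ) : ℂ) := by
      push_cast; rfl
    rw [this, Complex.div_ofReal_re, Complex.sub_re, Complex.log_re, Complex.ofReal_re]
  have hnorm1 : a / 4 < ‖τ‖ := hre.trans_le ((le_abs_self _).trans (Complex.abs_re_le_norm τ))
  have hxle : ‖x‖ ≤ 1 := by
    rw [hx, Complex.norm_exp, hexp_re, Real.exp_le_one_iff]
    apply div_nonpos_of_nonpos_of_nonneg _ hm0.le
    have h1 : ‖τ‖ ≤ n := by
      have := h.a_le
      have := h.two_log_le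
      linarith
    have := Real.log_le_log (by linarith) h1
    linarith
  have hxim : x.im = ‖x‖ * Real.sin (τ.arg / ((n : ℝ) - 1)) := by
    rw [hx, Complex.exp_im, Complex.norm_exp, hexp_im]
  have hth0 : th n 0 = 0 := by unfold th; simp
  have hth1 : th n (0 + 1) = 2 * Real.pi / ((n : ℝ) - 1) := by unfold th; simp
  have hsin : 0 < Real.sin (τ.arg / ((n : ℝ) - 1)) := by
    apply Real.sin_pos_of_pos_of_lt_pi (by positivity)
    rw [div_lt_iff₀ hm0]
    nlinarith
  have hximpos : 0 < x.im := by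
    rw [hxim]
    exact mul_pos (norm_pos_iff.2 hx0) hsin
  refine ⟨x, hP, ?_, hx0, ?_, ?_, ?_, ?_, ?_⟩
  · rw [P_conj, hP, map_zero]
  · intro heq
    have h1 := congrArg Complex.im heq
    rw [Complex.conj_im] at h1
    linarith
  · rw [dist_eq_norm]
    have h1 : x - (starRingEnd ℂ) x = ((2 * x.im : ℝ) : ℂ) * I := by
      apply Complex.ext <;> simp
      ring
    rw [h1, norm_mul, Complex.norm_I, mul_one, Complex.norm_real, Real.norm_eq_abs,
      abs_of_pos (by linarith)]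
    have h2 : x.im ≤ τ.arg / ((n : ℝ) - 1) := by
      rw [hxim]
      have h4 : Real.sin (τ.arg / ((n : ℝ) - 1)) ≤ τ.arg / ((n : ℝ) - 1) :=
        Real.sin_le (by positivity)
      calc ‖x‖ * Real.sin (τ.arg / ((n : ℝ) - 1)) ≤ 1 * (τ.arg / ((n : ℝ) - 1)) :=
            mul_le_mul hxle h4 hsin.le zero_le_one
        _ = _ := one_mul _
    have h5 := div_le_div_of_nonneg_right harg hm0.le
    have h6 : 2 * Real.pi * cf n a ^ (m + 1) /
        (((n : ℝ) - 1) * ∏ j ∈ Finset.range (m + 1), R j) =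
        2 * (Real.pi * cf n a ^ (m + 1) / (∏ j ∈ Finset.range (m + 1), R j) / ((n : ℝ) - 1)) := by
      rw [div_div, ← mul_div_assoc, mul_comm ((n : ℝ) - 1)]
      congr 1
      ring
    rw [h6]
    linarith
  · refine ⟨_, ⟨?_, ?_⟩, rfl⟩
    · rw [hexp_im, hth0]; positivity
    · rw [hexp_im, hth1]
      apply div_lt_div_of_pos_right _ hm0
      linarith
  · intro hmem
    have h1 : (starRingEnd ℂ) x ∈ sector (-(2 * Real.pi / ((n : ℝ) - 1))) 0 := by
      refine ⟨(starRingEnd ℂ) ((Complex.log τ - Real.log n) / ((n : ℂ) - 1)), ⟨?_, ?_⟩, ?_⟩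
      · rw [Complex.conj_im, hexp_im]
        have : τ.arg / ((n : ℝ) - 1) < 2 * Real.pi / ((n : ℝ) - 1) := by
          apply div_lt_div_of_pos_right _ hm0
          linarith
        linarith
      · rw [Complex.conj_im, hexp_im]
        have : 0 < τ.arg / ((n : ℝ) - 1) := by positivity
        linarith
      · rw [hx, Complex.exp_conj]
    rw [hth0, hth1] at hmem
    have h2 := sector_disj (a := -(2 * Real.pi / ((n : ℝ) - 1))) (b := 0)
      (c := 2 * Real.pi / ((n : ℝ) - 1)) (by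
        have : 2 * Real.pi / ((n : ℝ) - 1) ≤ Real.pi := by
          rw [div_le_iff₀ hm0]; nlinarith
        linarith)
    have h3 : (starRingEnd ℂ) x ∈ sector (-(2 * Real.pi / ((n : ℝ) - 1))) 0 ∩
      sector 0 (2 * Real.pi / ((n : ℝ) - 1)) := ⟨h1, hmem⟩
    rw [h2] at h3
    exact h3
  · have h1 := depth_ge hn (τ := τ) (by linarith)
    rw [← hx] at h1
    refine le_trans ?_ h1
    have hq : 0 ≤ 1 - Real.log n / ((n : ℝ) - 1) := by
      rw [sub_nonneg, div_le_one hm0]
      have := Real.log_le_sub_one_of_pos hn0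
      linarith
    apply mul_le_mul_of_nonneg_left _ hq
    apply div_le_div_of_nonneg_right _ hn0.le
    have h2 : a * (1 - (Real.log a + 8) / a) ≤ ‖τ‖ := by
      have h3 := norm_sub_norm_le (a : ℂ) τ
      rw [Complex.norm_real, Real.norm_eq_abs, abs_of_pos (by linarith), norm_sub_rev] at h3
      have h4 : a * (1 - (Real.log a + 8) / a) = a - (Real.log a + 8) := by
        field_simp
      rw [h4]
      linarith
    have ht : (Real.log a + 8) / a ≤ 1 / 32 := by
      rw [div_le_iff₀ (by linarith)]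
      linarith
    have ht0 : 0 ≤ (Real.log a + 8) / a := by positivity
    have h5 : Real.log a + Real.log (1 - (Real.log a + 8) / a) ≤ Real.log ‖τ‖ := by
      rw [← Real.log_mul (by linarith) (by linarith)]
      exact Real.log_le_log (mul_pos (by linarith) (by linarith)) h2
    have h6 := Real.one_sub_inv_le_log_of_pos (show 0 < 1 - (Real.log a + 8) / a by linarith)
    have h7 : -(2 * ((Real.log a + 8) / a)) ≤ 1 - (1 - (Real.log a + 8) / a)⁻¹ := by
      have h8 : 0 < 1 - (Real.log a + 8) / a := by linarith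
      have h9 : (1 - (Real.log a + 8) / a)⁻¹ ≤ 1 + 2 * ((Real.log a + 8) / a) := by
        rw [inv_le_iff_one_le_mul₀ h8]
        nlinarith
      linarith
    linarith

end Pool.Agent.H7M.St
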