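import Mathlib
import Pool.Agent.H7M.St3

set_option autoImplicit false

/-! # The staircase: asymptotics -/

namespace Pool.Agent.H7M.St

open Set Metric Filter Topology N62a1eb23 Pool.Agent.H712R2 Pool.Agent.N228.LC

/-- the iterated logarithms of `n` -/
noncomputable def L (k n : ℕ) : ℝ := Real.log^[k] n

theorem L_zero (n : ℕ) : L 0 n = n := rfl

theorem L_succ (k n : ℕ) : L (k + 1) n = Real.log (L k n) := Function.iterate_succ_apply' _ _ _

theorem tendsto_L (k : ℕ) : Tendsto (fun n => L k n) atTop atTop := by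
  induction k with
  | zero => exact tendsto_natCast_atTop_atTop
  | succ k ih =>
    have : (fun n => L (k + 1) n) = fun n => Real.log (L k n) := by
      funext n
      exact L_succ k n
    rw [this]
    exact Real.tendsto_log_atTop.comp ih

theorem ev_one (m : ℕ) : ∀ᶠ n : ℕ in atTop, ∀ i, i ≤ m → 1 ≤ L i n := by
  have h1 : ∀ᶠ n : ℕ in atTop, ∀ i ∈ Set.Iic m, 1 ≤ L i n :=
    (Set.finite_Iic m).eventually_all.2 fun i _ => (tendsto_L i).eventually_ge_atTop 1
  filter_upwards [h1] with n hn i hi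
  exact hn i hi

theorem L_anti {m n : ℕ} (h : ∀ i, i ≤ m → 1 ≤ L i n) : ∀ j i, i + j ≤ m → L (i + j) n ≤ L i n := by
  intro j
  induction j with
  | zero => intro i _; exact le_rfl
  | succ j ih =>
    intro i hi
    have h1 := ih i (by omega)
    have h2 := h (i + j) (by omega)
    have h3 : L (i + (j + 1)) n = Real.log (L (i + j) n) := L_succ (i + j) n
    rw [h3]
    have h4 := Real.log_le_sub_one_of_pos (show 0 < L (i + j) n by linarith)
    linarith

/-- `log x ^ 2 / x` is small -/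
theorem ev_logsq {c : ℝ} (hc : 0 < c) : ∀ᶠ n : ℕ in atTop, Real.log n ^ 2 ≤ c * n := by
  have h1 := (Real.isLittleO_pow_log_id_atTop (n := 2)).bound hc
  have h2 := tendsto_natCast_atTop_atTop (R := ℝ) |>.eventually h1
  filter_upwards [h2] with n hn
  rw [Real.norm_eq_abs, abs_of_nonneg (sq_nonneg _), Real.norm_eq_abs, id_eq, Nat.abs_cast] at hn
  exact hn

theorem ev_log {c : ℝ} (hc : 0 < c) : ∀ᶠ x : ℝ in atTop, Real.log x ≤ c * x := by
  have h1 := Real.isLittleO_log_id_atTop.bound hc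
  filter_upwards [h1, eventually_ge_atTop 1] with x hx hx1
  rw [Real.norm_eq_abs, Real.norm_eq_abs, id_eq, abs_of_nonneg (Real.log_nonneg hx1),
    abs_of_nonneg (by linarith)] at hx
  exact hx

theorem ev_hyp (m : ℕ) : ∀ᶠ n : ℕ in atTop, Hyp n m (fun i => L (i + 1) n) (L (m + 1) n) := by
  have h1 := (tendsto_L (m + 1)).eventually (ev_log (show (0 : ℝ) < 1 / 64 by norm_num))
  have h2 := (tendsto_L (m + 1)).eventually_ge_atTop 576
  filter_upwards [ev_one (m + 1), h1, h2, ev_logsq (show (0 : ℝ) < 1 / 8 by norm_num)]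
    with n hn h1 h2 h3
  refine ⟨?_, ?_, rfl, ?_, ?_, ?_, by linarith, by nlinarith⟩
  · show L 1 n = _
    rw [L_succ, L_zero]
  · intro i hi
    exact L_succ (i + 1) n
  · intro i hi
    have h4 := L_anti hn (m - i) (i + 1) (by omega)
    have h5 : i + 1 + (m - i) = m + 1 := by omega
    rwa [h5] at h4
  · intro i hi
    have h4 := L_anti hn i 1 (by omega)
    rw [L_succ 0, L_zero, add_comm 1 i] at h4
    exact h4
  · linarith

theorem tendsto_ratio (m : ℕ) :
    Tendsto (fun n => (Real.log (L (m + 1) n) + 8) / L (m + 1) n) atTop (𝓝 0) := by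
  have h1 : Tendsto (fun x : ℝ => (Real.log x + 8) / x) atTop (𝓝 0) := by
    have h2 : Tendsto (fun x : ℝ => Real.log x / x) atTop (𝓝 0) := by
      have := Real.isLittleO_log_id_atTop.tendsto_div_nhds_zero
      simpa using this
    have h3 : Tendsto (fun x : ℝ => 8 / x) atTop (𝓝 0) := tendsto_const_nhds.div_atTop tendsto_id
    have h4 := h2.add h3
    rw [add_zero] at h4
    refine h4.congr fun x => ?_
    rw [add_div]
  exact h1.comp (tendsto_L (m + 1))

theorem tendsto_logsq : Tendsto (fun n : ℕ => Real.log n ^ 2 / n) atTop (𝓝 0) := by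
  have h1 := (Real.isLittleO_pow_log_id_atTop (n := 2)).tendsto_div_nhds_zero
  exact h1.comp (tendsto_natCast_atTop_atTop (R := ℝ))

theorem tendsto_log : Tendsto (fun n : ℕ => Real.log n / n) atTop (𝓝 0) := by
  have h1 := Real.isLittleO_log_id_atTop.tendsto_div_nhds_zero
  exact h1.comp (tendsto_natCast_atTop_atTop (R := ℝ))

theorem tendsto_n : Tendsto (fun n : ℕ => (n : ℝ) / ((n : ℝ) - 1)) atTop (𝓝 1) := by
  have h1 : Tendsto (fun n : ℕ => (1 : ℝ) - 1 / n) atTop (𝓝 (1 - 0)) :=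
    tendsto_const_nhds.sub tendsto_one_div_atTop_nhds_zero_nat
  have h2 := h1.inv₀ (by norm_num)
  rw [sub_zero, inv_one] at h2
  refine h2.congr' ?_
  filter_upwards [eventually_ge_atTop 2] with n hn
  have h3 : (2 : ℝ) ≤ n := by exact_mod_cast hn
  have h4 : (n : ℝ) - 1 ≠ 0 := by linarith
  have h5 : (n : ℝ) ≠ 0 := by linarith
  field_simp

theorem tendsto_cf (m : ℕ) : Tendsto (fun n => cf n (L (m + 1) n)) atTop (𝓝 1) := by
  have h1 : Tendsto (fun n : ℕ => Real.exp (2 * Real.log n / n)) atTop (𝓝 (Real.exp (2 * 0))) := by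
    apply (Real.continuous_exp.tendsto _).comp
    have := tendsto_log.const_mul 2
    refine this.congr fun n => ?_
    rw [mul_div_assoc]
  have h2 : Tendsto (fun n => 1 - (Real.log (L (m + 1) n) + 8) / L (m + 1) n) atTop
      (𝓝 (1 - 0)) := tendsto_const_nhds.sub (tendsto_ratio m)
  have h3 := h1.div h2 (by norm_num)
  have h4 : Real.exp (2 * 0) / (1 - 0) = 1 := by simp
  rw [h4] at h3
  exact h3

/-- the distances -/
theorem ev_dist (m : ℕ) {ε : ℝ} (hε : 0 < ε) : ∀ᶠ n : ℕ in atTop,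
    2 * Real.pi * cf n (L (m + 1) n) ^ (m + 1) * ((n : ℝ) / ((n : ℝ) - 1)) ≤
      2 * Real.pi + ε := by
  have h1 : Tendsto (fun n : ℕ => 2 * Real.pi * cf n (L (m + 1) n) ^ (m + 1) *
      ((n : ℝ) / ((n : ℝ) - 1))) atTop (𝓝 (2 * Real.pi * 1 ^ (m + 1) * 1)) :=
    (((tendsto_cf m).pow (m + 1)).const_mul _).mul tendsto_n
  rw [one_pow, mul_one, mul_one] at h1
  filter_upwards [h1.eventually_le_const (show 2 * Real.pi < 2 * Real.pi + ε by linarith)] with n hn
  exact hn

/-- the depths -/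
theorem ev_depth (m : ℕ) {ε : ℝ} (hε : 0 < ε) : ∀ᶠ n : ℕ in atTop,
    L (m + 2) n + 1 - ε ≤ (1 - Real.log n / ((n : ℝ) - 1)) *
      (Real.log (L (m + 1) n) -
        2 * ((Real.log (L (m + 1) n) + 8) / L (m + 1) n) + 1) := by
  have h1 : ∀ᶠ n : ℕ in atTop, 2 * ((Real.log (L (m + 1) n) + 8) / L (m + 1) n) ≤ ε / 2 := by
    have h2 := (tendsto_ratio m).const_mul 2
    rw [mul_zero] at h2
    filter_upwards [h2.eventually_le_const (show (0 : ℝ) < ε / 2 by linarith)] with n hn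
    exact hn
  filter_upwards [h1, ev_hyp m, ev_logsq (show 0 < ε / 16 by linarith), ev_one (m + 2),
    eventually_ge_atTop 2, ev_one 1] with n h1 h2 h3 h4 h5 h6
  have hn2 : (2 : ℝ) ≤ n := by exact_mod_cast h5
  have hm0 : 0 < (n : ℝ) - 1 := by linarith
  obtain ⟨l, hl⟩ : ∃ l, l = Real.log n := ⟨_, rfl⟩
  have hl1 : 1 ≤ l := by
    have := h6 1 le_rfl
    rw [L_succ, L_zero] at this
    rw [hl]
    exact this
  have hl2 : Real.log (L (m + 1) n) ≤ l := by
    rw [← L_succ, hl]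
    have h7 := L_anti h4 (m + 1) 1 (by omega)
    have h8 : 1 + (m + 1) = m + 2 := by omega
    rw [h8, L_succ 0, L_zero] at h7
    exact h7
  have hl0 : 0 ≤ Real.log (L (m + 1) n) := h2.loga
  rw [L_succ (m + 1)]
  have hq : l / ((n : ℝ) - 1) ≤ 2 * l / n := by
    rw [div_le_div_iff₀ hm0 (by linarith)]
    nlinarith
  have hq2 : 2 * l / n * (2 * l) ≤ ε / 4 := by
    have h9 : 2 * l / n * (2 * l) = 4 * (l ^ 2 / n) := by ring
    rw [h9]
    have h10 : l ^ 2 / n ≤ ε / 16 := by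
      rw [div_le_iff₀ (by linarith), hl]
      exact h3
    linarith
  have hq0 : 0 ≤ l / ((n : ℝ) - 1) := by positivity
  rw [← hl]
  have h11 : l / ((n : ℝ) - 1) * (Real.log (L (m + 1) n) -
      2 * ((Real.log (L (m + 1) n) + 8) / L (m + 1) n) + 1) ≤ ε / 4 := by
    have h12 : Real.log (L (m + 1) n) -
        2 * ((Real.log (L (m + 1) n) + 8) / L (m + 1) n) + 1 ≤ 2 * l := by
      have h13 : 0 ≤ (Real.log (L (m + 1) n) + 8) / L (m + 1) n := by
        have := h2.a_big
        positivity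
      linarith
    calc _ ≤ l / ((n : ℝ) - 1) * (2 * l) := mul_le_mul_of_nonneg_left h12 hq0
      _ ≤ 2 * l / n * (2 * l) := mul_le_mul_of_nonneg_right hq (by linarith)
      _ ≤ ε / 4 := hq2
  linarith

/-- **The staircase.** -/
theorem staircase (m : ℕ) {ε : ℝ} (hε : 0 < ε) : ∀ᶠ n : ℕ in atTop,
    ∃ x ∈ multibrotSet n, ∃ y ∈ multibrotSet n, x ≠ 0 ∧ x ≠ y ∧
      P n (m + 3) x = 0 ∧ P n (m + 3) y = 0 ∧
      dist x y ≤ (2 * Real.pi + ε) / (n * ∏ j ∈ Finset.range (m + 1), L (j + 1) n) ∧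
      ∀ S : Set ℂ, S ⊆ multibrotSet n → IsPreconnected S → x ∈ S → y ∈ S →
        (L (m + 2) n + 1 - ε) / n ≤ Metric.diam S := by
  filter_upwards [ev_hyp m, ev_dist m hε, ev_depth m hε, eventually_ge_atTop 3] with n h1 h2 h3 h4
  obtain ⟨x, hx1, hx2, hx0, hxy, hd, hs1, hs2, hdep⟩ := step h1 h4
  have hnr : (3 : ℝ) ≤ n := by exact_mod_cast h4
  have hn0 : (0 : ℝ) < n := by linarith
  have hm0 : 0 < (n : ℝ) - 1 := by linarith
  have hprod : 0 < ∏ j ∈ Finset.range (m + 1), L (j + 1) n := by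
    apply Finset.prod_pos
    intro j hj
    have h5 := h1.hge j (by have := Finset.mem_range.1 hj; omega)
    have h6 := h1.a_big
    linarith
  refine ⟨x, mem_of_period (by omega) hx1, (starRingEnd ℂ) x, mem_of_period (by omega) hx2, hx0,
    hxy, hx1, hx2, ?_, ?_⟩
  · refine hd.trans ?_
    have h5 : 2 * Real.pi * cf n (L (m + 1) n) ^ (m + 1) /
        (((n : ℝ) - 1) * ∏ j ∈ Finset.range (m + 1), L (j + 1) n) =
        (2 * Real.pi * cf n (L (m + 1) n) ^ (m + 1) * ((n : ℝ) / ((n : ℝ) - 1))) /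
        (n * ∏ j ∈ Finset.range (m + 1), L (j + 1) n) := by
      field_simp
    rw [h5]
    exact div_le_div_of_nonneg_right h2 (by positivity)
  · intro S hS hSc hxS hyS
    have h7 := diam_ge (by omega) 0 hS hSc hxS hyS hs1 hs2
    have h9 := le_max_left ‖x‖ ‖(starRingEnd ℂ) x‖
    have h10 : (L (m + 2) n + 1 - ε) / n ≤ ‖x‖ - rr n := by
      refine le_trans ?_ hdep
      rw [← mul_div_assoc]
      exact div_le_div_of_nonneg_right h3 hn0.le
    linarith

end Pool.Agent.H7M.St
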