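import Mathlib
import Pool.Agent.H7M.St4

set_option autoImplicit false

/-! # The width of the fjords: orbits near the cusp directions escape -/

namespace Pool.Agent.H7M.Gap

open Set Metric Filter Topology Complex Pool.Agent.H7M.St

/-- `z_i = n u g_i ^ n` -/
noncomputable def zz (n : ℕ) (u : ℂ) (i : ℕ) : ℂ := n * u * gg n u i ^ n

/-- the angle of `z_i` -/
noncomputable def ph (n : ℕ) (u : ℂ) (α : ℝ) : ℕ → ℝ
  | 0 => α
  | i + 1 => α + n * (gg n u (i + 1)).arg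

theorem gg_zz {n : ℕ} (hn : (0 : ℝ) < n) (u : ℂ) (i : ℕ) :
    gg n u (i + 1) = 1 + zz n u i / n := by
  have hnC : (n : ℂ) ≠ 0 := by
    intro h'
    have : (n : ℝ) = 0 := by exact_mod_cast h'
    linarith
  show 1 + u * gg n u i ^ n = _
  unfold zz
  field_simp

theorem norm_zz (n : ℕ) (u : ℂ) (i : ℕ) : ‖zz n u i‖ = n * ‖u‖ * ‖gg n u i‖ ^ n := by
  unfold zz
  rw [norm_mul, norm_mul, norm_pow, Complex.norm_natCast]

theorem polar {n : ℕ} {u : ℂ} {α : ℝ} (hu : u = ‖u‖ * Complex.exp (α * I)) (i : ℕ) :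
    zz n u i = ‖zz n u i‖ * Complex.exp (ph n u α i * I) := by
  rw [norm_zz]
  cases i with
  | zero =>
    have h1 : gg n u 0 = 1 := rfl
    show (n : ℂ) * u * gg n u 0 ^ n = ((n * ‖u‖ * ‖gg n u 0‖ ^ n : ℝ) : ℂ) * Complex.exp (α * I)
    rw [h1, norm_one, one_pow, one_pow, mul_one, mul_one]
    push_cast
    conv_lhs => rw [hu]
    ring
  | succ i =>
    obtain ⟨g, hg⟩ : ∃ g, g = gg n u (i + 1) := ⟨_, rfl⟩
    show (n : ℂ) * u * gg n u (i + 1) ^ n =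
      ((n * ‖u‖ * ‖gg n u (i + 1)‖ ^ n : ℝ) : ℂ) *
        Complex.exp (((α + n * (gg n u (i + 1)).arg : ℝ) : ℂ) * I)
    rw [← hg]
    have h1 : g ^ n = ((‖g‖ ^ n : ℝ) : ℂ) * Complex.exp (((n * g.arg : ℝ) : ℂ) * I) := by
      conv_lhs => rw [← Complex.norm_mul_exp_arg_mul_I g]
      rw [mul_pow, ← Complex.exp_nat_mul]
      push_cast
      congr 2
      ring
    rw [h1]
    conv_lhs => rw [hu]
    have h2 : Complex.exp (((α + n * g.arg : ℝ) : ℂ) * I) =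
        Complex.exp (α * I) * Complex.exp (((n * g.arg : ℝ) : ℂ) * I) := by
      rw [← Complex.exp_add]
      congr 1
      push_cast
      ring
    rw [h2]
    push_cast
    ring

theorem re_zz {n : ℕ} {u : ℂ} {α : ℝ} (hu : u = ‖u‖ * Complex.exp (α * I)) (i : ℕ) :
    (zz n u i).re = ‖zz n u i‖ * Real.cos (ph n u α i) := by
  conv_lhs => rw [polar hu i]
  rw [Complex.re_ofReal_mul, Complex.exp_ofReal_mul_I_re]

theorem im_zz {n : ℕ} {u : ℂ} {α : ℝ} (hu : u = ‖u‖ * Complex.exp (α * I)) (i : ℕ) :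
    (zz n u i).im = ‖zz n u i‖ * Real.sin (ph n u α i) := by
  conv_lhs => rw [polar hu i]
  rw [Complex.im_ofReal_mul, Complex.exp_ofReal_mul_I_im]

theorem abs_arg_le {z : ℂ} (hre : 1 ≤ z.re) : |z.arg| ≤ |z.im| := by
  have h2 : |z.arg| < Real.pi / 2 := Complex.abs_arg_lt_pi_div_two_iff.2 (Or.inl (by linarith))
  have h3 := Real.le_tan (abs_nonneg z.arg) h2
  have h4 : Real.tan |z.arg| = |z.im| / z.re := by
    rcases le_or_gt 0 z.arg with h | h
    · rw [abs_of_nonneg h, Complex.tan_arg, abs_of_nonneg (Complex.arg_nonneg_iff.1 h)]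
    · rw [abs_of_neg h, Real.tan_neg, Complex.tan_arg, abs_of_neg (Complex.arg_neg_iff.1 h)]
      ring
  rw [h4] at h3
  refine h3.trans ?_
  rw [div_le_iff₀ (by linarith)]
  nlinarith [abs_nonneg z.im]

/-- the parts of `g` -/
theorem re_gg {n : ℕ} (hn : (0 : ℝ) < n) {u : ℂ} {α : ℝ} (hu : u = ‖u‖ * Complex.exp (α * I))
    (i : ℕ) : (gg n u (i + 1)).re = 1 + ‖zz n u i‖ * Real.cos (ph n u α i) / n := by
  rw [gg_zz hn, ← re_zz hu i, Complex.add_re, Complex.one_re]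
  congr 1
  have : zz n u i / (n : ℂ) = zz n u i / ((n : ℝ) : ℂ) := by push_cast; rfl
  rw [this, Complex.div_ofReal_re]

theorem im_gg {n : ℕ} (hn : (0 : ℝ) < n) {u : ℂ} {α : ℝ} (hu : u = ‖u‖ * Complex.exp (α * I))
    (i : ℕ) : (gg n u (i + 1)).im = ‖zz n u i‖ * Real.sin (ph n u α i) / n := by
  rw [gg_zz hn, ← im_zz hu i, Complex.add_im, Complex.one_im, zero_add]
  have : zz n u i / (n : ℂ) = zz n u i / ((n : ℝ) : ℂ) := by push_cast; rfl
  rw [this, Complex.div_ofReal_im]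

/-- the growth of the angle -/
theorem ph_succ {n : ℕ} (hn : (0 : ℝ) < n) {u : ℂ} {α : ℝ} (hu : u = ‖u‖ * Complex.exp (α * I))
    {i : ℕ} (hcos : 0 ≤ Real.cos (ph n u α i)) :
    |ph n u α (i + 1)| ≤ |α| + ‖zz n u i‖ * |ph n u α i| := by
  have h1 : 1 ≤ (gg n u (i + 1)).re := by
    rw [re_gg hn hu]
    have : 0 ≤ ‖zz n u i‖ * Real.cos (ph n u α i) / n := by positivity
    linarith
  have h2 := abs_arg_le h1
  rw [im_gg hn hu, abs_div, abs_mul, abs_norm, abs_of_pos hn] at h2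
  have h3 : |Real.sin (ph n u α i)| ≤ |ph n u α i| := Real.abs_sin_le_abs
  show |α + n * (gg n u (i + 1)).arg| ≤ _
  have h4 := abs_add_le α (n * (gg n u (i + 1)).arg)
  rw [abs_mul, abs_of_pos hn] at h4
  have h5 : (n : ℝ) * |(gg n u (i + 1)).arg| ≤ ‖zz n u i‖ * |ph n u α i| := by
    calc (n : ℝ) * |(gg n u (i + 1)).arg| ≤ n * (‖zz n u i‖ * |Real.sin (ph n u α i)| / n) :=
          mul_le_mul_of_nonneg_left h2 hn.le
      _ = ‖zz n u i‖ * |Real.sin (ph n u α i)| := by field_simp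
      _ ≤ _ := mul_le_mul_of_nonneg_left h3 (norm_nonneg _)
  linarith

/-- the growth of the modulus -/
theorem grow {n : ℕ} (hn : (0 : ℝ) < n) {u : ℂ} {α : ℝ} (hu : u = ‖u‖ * Complex.exp (α * I))
    {i : ℕ} {κ ρ : ℝ} (hκ0 : 0 ≤ κ) (hκ1 : κ ≤ 1) (hcos : κ ≤ Real.cos (ph n u α i)) (hρ0 : 0 ≤ ρ)
    (hρ : ρ ≤ ‖zz n u i‖) (hρn : ρ ^ 2 ≤ n) :
    n * ‖u‖ * Real.exp (κ * ρ - 1) ≤ ‖zz n u (i + 1)‖ := by
  rw [norm_zz]
  apply mul_le_mul_of_nonneg_left _ (by positivity)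
  have h1 : 1 + κ * ρ / n ≤ ‖gg n u (i + 1)‖ := by
    refine le_trans ?_ ((le_abs_self _).trans (Complex.abs_re_le_norm _))
    rw [re_gg hn hu]
    have h2 : κ * ρ ≤ ‖zz n u i‖ * Real.cos (ph n u α i) := by
      rw [mul_comm κ]
      exact mul_le_mul hρ hcos hκ0 (norm_nonneg _)
    have := div_le_div_of_nonneg_right h2 hn.le
    linarith
  obtain ⟨y, hy⟩ : ∃ y, y = κ * ρ / n := ⟨_, rfl⟩
  have hy0 : 0 ≤ y := by rw [hy]; positivity
  rw [← hy] at h1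
  have h3 : (1 + y) ^ n ≤ ‖gg n u (i + 1)‖ ^ n := pow_le_pow_left₀ (by linarith) h1 n
  refine le_trans ?_ h3
  have h4 := Real.le_log_one_add_of_nonneg hy0
  have h5 : Real.exp (n * Real.log (1 + y)) = (1 + y) ^ n := by
    rw [Real.exp_nat_mul, Real.exp_log (by linarith)]
  rw [← h5]
  apply Real.exp_le_exp.2
  have h6 : y - y ^ 2 / 2 ≤ 2 * y / (y + 2) := by
    rw [le_div_iff₀ (by linarith)]
    nlinarith [pow_nonneg hy0 3]
  have h7 : n * (y - y ^ 2 / 2) ≤ n * Real.log (1 + y) :=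
    mul_le_mul_of_nonneg_left (h6.trans h4) hn.le
  have h8 : n * y = κ * ρ := by
    rw [hy]
    field_simp
  have h9 : n * (y ^ 2 / 2) ≤ 1 := by
    have h10 : n * (y ^ 2 / 2) = (κ * ρ) ^ 2 / (2 * n) := by
      rw [hy]
      field_simp
    rw [h10, div_le_one (by linarith)]
    have h11 : (κ * ρ) ^ 2 ≤ ρ ^ 2 := by
      rw [mul_pow]
      have : κ ^ 2 ≤ 1 := pow_le_one₀ hκ0 hκ1
      nlinarith [sq_nonneg ρ]
    linarith
  have h12 : n * (y - y ^ 2 / 2) = κ * ρ - n * (y ^ 2 / 2) := by rw [← h8]; ring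
  linarith

end Pool.Agent.H7M.Gap
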