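import Mathlib
import Pool.Agent.H7M.Gap1

set_option autoImplicit false

/-! # Orbits near the cusp directions escape -/

namespace Pool.Agent.H7M.Gap

open Set Metric Filter Topology Complex Pool.Agent.H7M.St

theorem prod_mono {f : ℕ → ℝ} {i m : ℕ} (hf : ∀ l, l < m → 1 ≤ f l) (him : i ≤ m) :
    ∏ l ∈ Finset.range i, f l ≤ ∏ l ∈ Finset.range m, f l := by
  induction m, him using Nat.le_induction with
  | base => exact le_rfl
  | succ k hk ih =>
    have h1 := ih fun l hl => hf l (by omega)
    rw [Finset.prod_range_succ]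
    have h2 : 0 ≤ ∏ l ∈ Finset.range k, f l := by
      apply Finset.prod_nonneg
      intro l hl
      have := hf l (by have := Finset.mem_range.1 hl; omega)
      linarith
    have h3 := hf k (by omega)
    nlinarith

theorem one_le_prod {f : ℕ → ℝ} {m : ℕ} (hf : ∀ l, l < m → 1 ≤ f l) :
    1 ≤ ∏ l ∈ Finset.range m, f l := by
  have := prod_mono hf (Nat.zero_le m)
  rwa [Finset.range_zero, Finset.prod_empty] at this

/-- **Escape near the cusp directions.** -/
theorem escape_main {n m : ℕ} {u : ℂ} {α κ η φ0 : ℝ} (hu : u = ‖u‖ * Complex.exp (α * I))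
    (hn0 : (0 : ℝ) < n) (hL : ∀ i, i ≤ m + 1 → 3 ≤ L i n) (hκ : 4 / 5 ≤ κ) (hκ1 : κ ≤ 1)
    (hη0 : 0 < η) (hη1 : η ≤ 1) (hκη : 1 + η / 2 ≤ κ * (1 + η))
    (hφ : ∀ φ : ℝ, |φ| ≤ φ0 → κ ≤ Real.cos φ)
    (hα : |α| * ((m + 1) * 3 ^ m * ∏ j ∈ Finset.range m, L (j + 1) n) ≤ φ0)
    (hT : (1 + η) * L (m + 1) n ≤ n * ‖u‖) (hnb : (3 * L 1 n) ^ 2 ≤ n)
    (hbig : 8 ≤ Real.exp (η / 2 * L 1 n)) (hr : ∀ j, ‖zz n u j‖ ≤ 8 * n) : False := by
  obtain ⟨T, hTdef⟩ : ∃ T, T = n * ‖u‖ := ⟨_, rfl⟩
  rw [← hTdef] at hT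
  have hT3 : (1 + η) * 3 ≤ T := by
    have := hL (m + 1) le_rfl
    nlinarith
  have hT3' : 3 ≤ T := by nlinarith
  have hl1 : 3 ≤ L 1 n := hL 1 (by omega)
  have hnexp : Real.exp (L 1 n) = n := by
    rw [L_succ, L_zero, Real.exp_log hn0]
  have hfin : 8 * n < T * Real.exp (κ * ((1 + η) * L 1 n) - 1) := by
    have h1 : (1 + η / 2) * L 1 n - 1 ≤ κ * ((1 + η) * L 1 n) - 1 := by
      have : (1 + η / 2) * L 1 n ≤ κ * (1 + η) * L 1 n :=
        mul_le_mul_of_nonneg_right hκη (by linarith)
      linarith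
    have h2 := Real.exp_le_exp.2 h1
    have h3 : Real.exp ((1 + η / 2) * L 1 n - 1) * Real.exp 1 = n * Real.exp (η / 2 * L 1 n) := by
      rw [← hnexp, ← Real.exp_add, ← Real.exp_add]
      congr 1
      ring
    have h4 := Real.exp_one_lt_d9
    have h5 := Real.exp_pos 1
    have h6 : (n : ℝ) * 8 ≤ n * Real.exp (η / 2 * L 1 n) := mul_le_mul_of_nonneg_left hbig hn0.le
    have h7 : 0 < Real.exp ((1 + η / 2) * L 1 n - 1) := Real.exp_pos _
    have h8 : 8 * n < 3 * Real.exp ((1 + η / 2) * L 1 n - 1) := by nlinarith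
    have h9 : 3 * Real.exp ((1 + η / 2) * L 1 n - 1) ≤
        T * Real.exp (κ * ((1 + η) * L 1 n) - 1) := by
      apply mul_le_mul hT3' h2 h7.le (by linarith)
    linarith
  -- the growth of the moduli
  have hgrow : ∀ i, |ph n u α i| ≤ φ0 → ∀ ρ, 0 ≤ ρ → ρ ≤ ‖zz n u i‖ → ρ ≤ 3 * L 1 n →
      T * Real.exp (κ * ρ - 1) ≤ ‖zz n u (i + 1)‖ := by
    intro i hi ρ h1 h2 h3
    rw [hTdef]
    refine grow hn0 hu (by linarith) hκ1 (hφ _ hi) h1 h2 ?_
    exact (pow_le_pow_left₀ h1 h3 2).trans hnb
  have hκ0 : 0 < κ := by linarith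
  -- no point is very large
  have hle : ∀ i, |ph n u α i| ≤ φ0 → ‖zz n u i‖ < (1 + η) * L 1 n := by
    intro i hi
    by_contra hcon
    push Not at hcon
    have h1 := hgrow i hi ((1 + η) * L 1 n) (by positivity) hcon (by nlinarith)
    have h2 := hr (i + 1)
    linarith
  have hS : ∀ i, i ≤ m →
      |ph n u α i| ≤ |α| * ((i + 1) * ∏ l ∈ Finset.range i, ‖zz n u l‖) ∧
      (1 + η) * L (m + 1 - i) n ≤ ‖zz n u i‖ ∧ (∀ l, l ≤ i → 1 ≤ ‖zz n u l‖) ∧
      (∀ M, 1 ≤ M → M + i ≤ m + 1 → ‖zz n u i‖ ≤ 3 * L M n →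
        ∏ l ∈ Finset.range (i + 1), ‖zz n u l‖ ≤
          3 ^ (i + 1) * ∏ l ∈ Finset.range (i + 1), L (M + l) n) ∧
      |ph n u α i| ≤ φ0 := by
    intro i
    induction i with
    | zero =>
      intro _
      have h0 : ‖zz n u 0‖ = T := by
        rw [norm_zz, hTdef]
        have h1 : gg n u 0 = 1 := rfl
        rw [h1, norm_one, one_pow, mul_one]
      have hph : ph n u α 0 = α := rfl
      rw [h0, hph]
      refine ⟨?_, ?_, ?_, ?_, ?_⟩
      · rw [Finset.range_zero, Finset.prod_empty]
        push_cast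
        rw [zero_add, one_mul, mul_one]
      · exact hT
      · intro l hl
        have hl0 : l = 0 := by omega
        rw [hl0, h0]
        linarith
      · intro M _ _ h1
        rw [zero_add, Finset.prod_range_one, Finset.prod_range_one, pow_one, h0, add_zero]
        exact h1
      · refine le_trans ?_ hα
        have h1 : 1 ≤ ∏ j ∈ Finset.range m, L (j + 1) n := by
          apply one_le_prod
          intro l hl
          have := hL (l + 1) (by omega)
          linarith
        have h2 : (1 : ℝ) ≤ 3 ^ m := one_le_pow₀ (by norm_num)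
        have h3 : (1 : ℝ) ≤ (m : ℝ) + 1 := by
          have := Nat.cast_nonneg (α := ℝ) m
          linarith
        have h4 : (1 : ℝ) ≤ (m + 1) * 3 ^ m := one_le_mul_of_one_le_of_one_le h3 h2
        have h5 : (1 : ℝ) ≤ (m + 1) * 3 ^ m * ∏ j ∈ Finset.range m, L (j + 1) n :=
          one_le_mul_of_one_le_of_one_le h4 h1
        exact le_mul_of_one_le_right (abs_nonneg _) h5
    | succ i ih =>
      intro hi
      obtain ⟨s1, s2, s3, s4, s5⟩ := ih (by omega)
      have hcos := hφ _ s5
      have hr1 := s3 i le_rfl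
      have hlt := hle i s5
      have hlt3 : ‖zz n u i‖ ≤ 3 * L 1 n := by nlinarith
      have hg := hgrow i s5 ‖zz n u i‖ (by linarith) le_rfl hlt3
      have hprod1 : 1 ≤ ∏ l ∈ Finset.range (i + 1), ‖zz n u l‖ :=
        one_le_prod fun l hl => s3 l (by omega)
      -- lower bound
      have s2' : (1 + η) * L (m + 1 - (i + 1)) n ≤ ‖zz n u (i + 1)‖ := by
        have e1 : m + 1 - i = (m + 1 - (i + 1)) + 1 := by omega
        obtain ⟨L', hL'⟩ : ∃ L', L' = L (m + 1 - (i + 1)) n := ⟨_, rfl⟩
        have hL'3 : 3 ≤ L' := by rw [hL']; exact hL _ (by omega)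
        rw [e1, L_succ, ← hL'] at s2
        rw [← hL']
        have hlog : 0 ≤ Real.log L' := Real.log_nonneg (by linarith)
        have h1 : Real.log L' - 1 ≤ κ * ‖zz n u i‖ - 1 := by
          have h2 : κ * ((1 + η) * Real.log L') ≤ κ * ‖zz n u i‖ :=
            mul_le_mul_of_nonneg_left s2 hκ0.le
          have h3 : (1 + η / 2) * Real.log L' ≤ κ * (1 + η) * Real.log L' :=
            mul_le_mul_of_nonneg_right hκη hlog
          nlinarith
        have h4 := Real.exp_le_exp.2 h1
        rw [Real.exp_sub, Real.exp_log (by linarith)] at h4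
        have h5 : (1 + η) * Real.exp 1 * (L' / Real.exp 1) = (1 + η) * L' := by
          have := Real.exp_pos 1
          field_simp
        have h6 : (1 + η) * Real.exp 1 ≤ T := by
          have h7 := Real.exp_one_lt_d9
          have h8 : (1 + η) * Real.exp 1 ≤ (1 + η) * 3 :=
            mul_le_mul_of_nonneg_left (by linarith) (by linarith)
          linarith
        rw [← h5]
        refine le_trans ?_ hg
        apply mul_le_mul h6 h4 _ (by linarith)
        have := Real.exp_pos 1
        positivity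
      have h1L : 1 ≤ ‖zz n u (i + 1)‖ := by
        have := hL (m + 1 - (i + 1)) (by omega)
        nlinarith
      -- the angle
      have s1' : |ph n u α (i + 1)| ≤
          |α| * (((i + 1 : ℕ) + 1) * ∏ l ∈ Finset.range (i + 1), ‖zz n u l‖) := by
        have h1 := ph_succ hn0 hu (i := i) (by linarith)
        have h2 : ‖zz n u i‖ * |ph n u α i| ≤
            ‖zz n u i‖ * (|α| * ((i + 1) * ∏ l ∈ Finset.range i, ‖zz n u l‖)) :=
          mul_le_mul_of_nonneg_left s1 (norm_nonneg _)
        have h3 : ‖zz n u i‖ * (|α| * ((i + 1) * ∏ l ∈ Finset.range i, ‖zz n u l‖)) =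
            |α| * ((i + 1) * ∏ l ∈ Finset.range (i + 1), ‖zz n u l‖) := by
          rw [Finset.prod_range_succ]
          ring
        have h4 : |α| ≤ |α| * ∏ l ∈ Finset.range (i + 1), ‖zz n u l‖ :=
          le_mul_of_one_le_right (abs_nonneg _) hprod1
        push_cast
        have h5 : |α| * (((i : ℝ) + 1 + 1) * ∏ l ∈ Finset.range (i + 1), ‖zz n u l‖) =
            |α| * (((i : ℝ) + 1) * ∏ l ∈ Finset.range (i + 1), ‖zz n u l‖) +
            |α| * ∏ l ∈ Finset.range (i + 1), ‖zz n u l‖ := by ring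
        rw [h5]
        linarith
      refine ⟨s1', s2', ?_, ?_, ?_⟩
      · intro l hl
        rcases Nat.lt_or_ge l (i + 1) with h | h
        · exact s3 l (by omega)
        · have : l = i + 1 := by omega
          rw [this]
          exact h1L
      · intro M hM1 hM2 hM3
        have hLM : 3 ≤ L M n := hL M (by omega)
        have hLM1 : 3 ≤ L (M + 1) n := hL (M + 1) (by omega)
        have h1 : 3 * Real.exp (κ * ‖zz n u i‖ - 1) ≤ 3 * L M n := by
          have h2 := mul_le_mul_of_nonneg_right hT3' (Real.exp_pos (κ * ‖zz n u i‖ - 1)).le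
          linarith
        have h2 : Real.exp (κ * ‖zz n u i‖ - 1) ≤ L M n := by linarith
        have h3 : κ * ‖zz n u i‖ - 1 ≤ L (M + 1) n := by
          rw [L_succ, Real.le_log_iff_exp_le (by linarith)]
          exact h2
        have h4 : ‖zz n u i‖ ≤ 3 * L (M + 1) n := by nlinarith
        have h5 := s4 (M + 1) (by omega) (by omega) h4
        rw [Finset.prod_range_succ]
        have h6 : (3 : ℝ) ^ (i + 1 + 1) * ∏ l ∈ Finset.range (i + 1 + 1), L (M + l) n =
            (3 ^ (i + 1) * ∏ l ∈ Finset.range (i + 1), L (M + 1 + l) n) * (3 * L M n) := by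
          rw [Finset.prod_range_succ', add_zero, pow_succ]
          have h7 : ∏ l ∈ Finset.range (i + 1), L (M + (l + 1)) n =
              ∏ l ∈ Finset.range (i + 1), L (M + 1 + l) n :=
            Finset.prod_congr rfl fun l _ => by
              have h8 : M + (l + 1) = M + 1 + l := by omega
              rw [h8]
          rw [h7]
          ring
        rw [h6]
        exact mul_le_mul h5 hM3 (norm_nonneg _) (by
          apply mul_nonneg (by positivity)
          apply Finset.prod_nonneg
          intro l hl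
          have := hL (M + 1 + l) (by have := Finset.mem_range.1 hl; omega)
          linarith)
      · have h1 := s4 1 le_rfl (by omega) hlt3
        refine s1'.trans (le_trans ?_ hα)
        apply mul_le_mul_of_nonneg_left _ (abs_nonneg _)
        have h2 : ∏ l ∈ Finset.range (i + 1), L (1 + l) n ≤
            ∏ j ∈ Finset.range m, L (j + 1) n := by
          have h3 : ∏ l ∈ Finset.range (i + 1), L (1 + l) n =
              ∏ l ∈ Finset.range (i + 1), L (l + 1) n :=
            Finset.prod_congr rfl fun l _ => by rw [add_comm]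
          rw [h3]
          apply prod_mono _ hi
          intro l hl
          have := hL (l + 1) (by omega)
          linarith
        have h4 : (3 : ℝ) ^ (i + 1) ≤ 3 ^ m := pow_le_pow_right₀ (by norm_num) hi
        have h5 : (((i + 1 : ℕ) : ℝ) + 1) ≤ (m : ℝ) + 1 := by
          have : ((i + 1 : ℕ) : ℝ) ≤ (m : ℝ) := by exact_mod_cast hi
          linarith
        have h6 : 0 ≤ ∏ l ∈ Finset.range (i + 1), L (1 + l) n := by
          apply Finset.prod_nonneg
          intro l hl
          have := hL (1 + l) (by have := Finset.mem_range.1 hl; omega)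
          linarith
        have h7 : 0 ≤ ∏ l ∈ Finset.range (i + 1), ‖zz n u l‖ :=
          Finset.prod_nonneg fun l _ => norm_nonneg _
        calc (((i + 1 : ℕ) : ℝ) + 1) * ∏ l ∈ Finset.range (i + 1), ‖zz n u l‖ ≤
              ((m : ℝ) + 1) * (3 ^ (i + 1) * ∏ l ∈ Finset.range (i + 1), L (1 + l) n) :=
              mul_le_mul h5 h1 h7 (by positivity)
          _ ≤ ((m : ℝ) + 1) * (3 ^ m * ∏ j ∈ Finset.range m, L (j + 1) n) := by
              apply mul_le_mul_of_nonneg_left _ (by positivity)
              exact mul_le_mul h4 h2 h6 (by positivity)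
          _ = _ := by ring
  obtain ⟨s1, s2, s3, s4, s5⟩ := hS m le_rfl
  have e1 : m + 1 - m = 1 := by omega
  rw [e1] at s2
  have h1 := hle m s5
  linarith

end Pool.Agent.H7M.Gap
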