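import Mathlib
import Pool.Agent.H7M.Gap2

set_option autoImplicit false

/-! # The width of the fjords: parameters near the cusp directions -/

namespace Pool.Agent.H7M.Gap

open Set Metric Filter Topology Complex N62a1eb23 Pool.Agent.H712R2 Pool.Agent.N228.LC
  Pool.Agent.H7M.St

/-- a parameter near a cusp direction -/
theorem near_ray {n : ℕ} {x ω : ℂ} {t δ : ℝ} (hω : ω ^ (n - 1) = 1) (hn : 2 ≤ n) (ht : 0 ≤ t)
    (hd : ‖x - t * ω‖ ≤ δ) (hx : 1 / 2 ≤ ‖x‖) (hδ : δ ≤ 1 / 8) :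
    ∃ α : ℝ, |α| ≤ 3 * n * δ ∧ x ^ (n - 1) = ‖x ^ (n - 1)‖ * Complex.exp (α * I) := by
  have hω1 : ‖ω‖ = 1 := by
    have : ‖ω‖ ^ (n - 1) = 1 := by rw [← norm_pow, hω, norm_one]
    exact (pow_eq_one_iff_of_nonneg (norm_nonneg _) (by omega)).mp this
  have hω0 : ω ≠ 0 := norm_pos_iff.1 (by rw [hω1]; exact one_pos)
  obtain ⟨v, hv⟩ : ∃ v, v = x / ω := ⟨_, rfl⟩
  obtain ⟨e, he⟩ : ∃ e, e = (x - t * ω) / ω := ⟨_, rfl⟩
  have hve : v = t + e := by
    rw [hv, he]
    field_simp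
    ring
  have hen : ‖e‖ ≤ δ := by
    rw [he, norm_div, hω1, div_one]
    exact hd
  have hvn : 1 / 2 ≤ ‖v‖ := by
    rw [hv, norm_div, hω1, div_one]
    exact hx
  have hre : v.re = t + e.re := by
    rw [hve, Complex.add_re, Complex.ofReal_re]
  have him : v.im = e.im := by
    rw [hve, Complex.add_im, Complex.ofReal_im, zero_add]
  have h1 := (Complex.abs_re_le_norm e).trans hen
  have h2 := (Complex.abs_im_le_norm e).trans hen
  have h3 := Complex.norm_le_abs_re_add_abs_im v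
  have hre2 : 3 / 8 ≤ v.re := by
    have h4 : 3 / 8 ≤ |v.re| := by
      rw [him] at h3
      linarith
    rcases le_abs'.1 h4 with h5 | h5
    · have := (abs_le.1 h1).1
      rw [hre] at h5
      linarith
    · exact h5
  have harg : |v.arg| ≤ 3 * δ := by
    have h5 : |v.arg| < Real.pi / 2 := Complex.abs_arg_lt_pi_div_two_iff.2 (Or.inl (by linarith))
    have h6 := Real.le_tan (abs_nonneg v.arg) h5
    have h4 : Real.tan |v.arg| = |v.im| / v.re := by
      rcases le_or_gt 0 v.arg with h | h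
      · rw [abs_of_nonneg h, Complex.tan_arg, abs_of_nonneg (Complex.arg_nonneg_iff.1 h)]
      · rw [abs_of_neg h, Real.tan_neg, Complex.tan_arg, abs_of_neg (Complex.arg_neg_iff.1 h)]
        ring
    rw [h4] at h6
    refine h6.trans ?_
    rw [div_le_iff₀ (by linarith), him]
    have h7 : 0 ≤ δ := (norm_nonneg e).trans hen
    nlinarith
  have hxu : x ^ (n - 1) = v ^ (n - 1) := by
    rw [hv, div_pow, hω, div_one]
  have hnr : (2 : ℝ) ≤ n := by exact_mod_cast hn
  refine ⟨((n - 1 : ℕ) : ℝ) * v.arg, ?_, ?_⟩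
  · rw [abs_mul, Nat.abs_cast, Nat.cast_sub (by omega), Nat.cast_one]
    have h8 : 0 ≤ |v.arg| := abs_nonneg _
    nlinarith
  · rw [hxu, norm_pow]
    conv_lhs => rw [← Complex.norm_mul_exp_arg_mul_I v]
    rw [mul_pow, ← Complex.exp_nat_mul]
    push_cast
    congr 2
    ring

/-- the moduli of the orbit -/
theorem zz_le {n : ℕ} (hn : 2 ≤ n) {x : ℂ} (hx : x ∈ multibrotSet n) (hx2 : 1 / 2 ≤ ‖x‖) (i : ℕ) :
    ‖zz n (x ^ (n - 1)) i‖ ≤ 8 * n := by
  have h := (mem_multibrot_iff hn x).1 hx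
  have hxn : x ^ n = x * x ^ (n - 1) := by
    rw [← pow_succ']
    congr 1
    omega
  have h1 := h (i + 2)
  rw [P_succ] at h1
  have h2 : ‖x‖ ≤ 2 := by
    have h3 := h 1
    rwa [P_one (by omega)] at h3
  have h3 : ‖P n (i + 1) x ^ n‖ ≤ 4 := by
    have h4 := norm_sub_le (P n (i + 1) x ^ n + x) x
    rw [add_sub_cancel_right] at h4
    linarith
  rw [P_gg (by omega) hxn i, norm_pow, norm_mul, mul_pow] at h3
  rw [norm_zz, norm_pow]
  have h5 : ‖x‖ ^ n = ‖x‖ * ‖x‖ ^ (n - 1) := by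
    rw [← pow_succ']
    congr 1
    omega
  rw [h5] at h3
  obtain ⟨A, hA⟩ : ∃ A, A = ‖x‖ ^ (n - 1) * ‖gg n (x ^ (n - 1)) i‖ ^ n := ⟨_, rfl⟩
  have hA0 : 0 ≤ A := by rw [hA]; positivity
  have h6 : ‖x‖ * A ≤ 4 := by
    rw [hA, ← mul_assoc]
    exact h3
  have h7 : A ≤ 8 := by nlinarith
  have h8 : (n : ℝ) * ‖x‖ ^ (n - 1) * ‖gg n (x ^ (n - 1)) i‖ ^ n = n * A := by
    rw [hA]
    ring
  rw [h8]
  have := mul_le_mul_of_nonneg_left h7 (Nat.cast_nonneg (α := ℝ) n)
  linarith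

/-- a segment from a sector to a point outside crosses a cusp direction -/
theorem cross {n : ℕ} (hn : 2 ≤ n) (j : ℤ) {x y : ℂ} (hxs : x ∈ sector (th n j) (th n (j + 1)))
    (hys : y ∉ sector (th n j) (th n (j + 1))) :
    ∃ (t : ℝ) (ω : ℂ), 0 ≤ t ∧ ω ^ (n - 1) = 1 ∧ ‖x - t * ω‖ ≤ dist x y ∧
      ‖y - t * ω‖ ≤ dist x y := by
  by_contra hcon
  push Not at hcon
  have hpi := Real.pi_pos
  have hseg : ∀ z ∈ segment ℝ x y, ∀ (t : ℝ) (ω : ℂ), 0 ≤ t → ω ^ (n - 1) = 1 → z ≠ t * ω := by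
    rintro z hz t ω ht hω rfl
    have h1 : dist x (t * ω) ≤ dist x y := by
      have h2 : x ∈ closedBall x (dist x y) := mem_closedBall_self dist_nonneg
      have h3 : y ∈ closedBall x (dist x y) := by rw [mem_closedBall, dist_comm]
      have h4 := (convex_closedBall x (dist x y)).segment_subset h2 h3 hz
      rwa [mem_closedBall, dist_comm] at h4
    have h5 : dist y (t * ω) ≤ dist x y := by
      have h2 : y ∈ closedBall y (dist x y) := mem_closedBall_self dist_nonneg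
      have h3 : x ∈ closedBall y (dist x y) := by rw [mem_closedBall]
      have h4 := (convex_closedBall y (dist x y)).segment_subset h3 h2 hz
      rwa [mem_closedBall, dist_comm] at h4
    rw [dist_eq_norm] at h1 h5
    have := hcon t ω ht hω h1
    linarith
  have hcov : ∀ z ∈ segment ℝ x y, z ∈ sector (th n j) (th n (j + 1)) ∨
      z ∈ sector (th n (j + 1)) (th n j + 2 * Real.pi) := by
    intro z hz
    have hz0 : z ≠ 0 := by
      intro h0
      apply hseg z hz 0 1 le_rfl (one_pow _)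
      rw [h0]
      simp
    set w := Complex.log z with hw
    have hwz : Complex.exp w = z := Complex.exp_log hz0
    set k : ℤ := ⌊(w.im - th n j) / (2 * Real.pi)⌋ with hk
    set w' : ℂ := w - ((k:ℝ) * (2 * Real.pi) : ℝ) * I with hw'
    have hw'z : Complex.exp w' = z := by
      rw [← hwz, Complex.exp_eq_exp_iff_exists_int]
      refine ⟨-k, ?_⟩
      rw [hw']; push_cast; ring
    have him : w'.im = w.im - k * (2 * Real.pi) := by
      rw [hw']; simp
    have h1 : th n j ≤ w'.im := by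
      have := Int.floor_le ((w.im - th n j) / (2 * Real.pi))
      rw [← hk, le_div_iff₀ (by positivity)] at this
      linarith
    have h2 : w'.im < th n j + 2 * Real.pi := by
      have := Int.lt_floor_add_one ((w.im - th n j) / (2 * Real.pi))
      rw [← hk, div_lt_iff₀ (by positivity)] at this
      linarith
    have hcusp : ∀ i : ℤ, w'.im ≠ th n i := by
      intro i hi
      have h1 : Complex.exp w' = ((Real.exp w'.re : ℝ) : ℂ) * Complex.exp ((th n i : ℝ) * I) := by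
        rw [Complex.ofReal_exp, ← Complex.exp_add]
        congr 1
        apply Complex.ext <;> simp [hi]
      exact hseg z hz (Real.exp w'.re) _ (Real.exp_pos _).le (exp_th_pow hn i)
        (by rw [← h1, hw'z])
    rcases lt_or_ge w'.im (th n (j + 1)) with h | h
    · left
      exact ⟨w', ⟨lt_of_le_of_ne h1 (fun h => hcusp j h.symm), h⟩, hw'z⟩
    · right
      exact ⟨w', ⟨lt_of_le_of_ne h (fun h => hcusp (j + 1) h.symm), h2⟩, hw'z⟩
  have hc : IsPreconnected (segment ℝ x y) := (convex_segment x y).isPreconnected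
  have hx : x ∈ segment ℝ x y := left_mem_segment ℝ x y
  have hy : y ∈ segment ℝ x y := right_mem_segment ℝ x y
  obtain ⟨z, hz, hzz⟩ := hc _ _ (isOpen_sector _ _) (isOpen_sector _ _) hcov ⟨x, hx, hxs⟩
    ⟨y, hy, (hcov y hy).resolve_left hys⟩
  rw [sector_disj le_rfl] at hzz
  exact hzz

/-- from the modulus of `n x ^ (n - 1)` to the depth -/
theorem depth_le {n : ℕ} (hn : 2 ≤ n) {x : ℂ} {A : ℝ} (hA : 1 ≤ A) (hx0 : 0 < ‖x‖)
    (hx : n * ‖x‖ ^ (n - 1) ≤ A) (hA2 : Real.log A / ((n : ℝ) - 1) ≤ 1) :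
    ‖x‖ - rr n ≤ Real.log A / ((n : ℝ) - 1) + (Real.log A / ((n : ℝ) - 1)) ^ 2 + 1 / n := by
  have hnr : (2 : ℝ) ≤ n := by exact_mod_cast hn
  have hm0 : 0 < (n : ℝ) - 1 := by linarith
  have hn0 : (0 : ℝ) < n := by linarith
  obtain ⟨y, hy⟩ : ∃ y, y = Real.log A / ((n : ℝ) - 1) := ⟨_, rfl⟩
  rw [← hy] at hA2 ⊢
  have hlA : 0 ≤ Real.log A := Real.log_nonneg hA
  have hy0 : 0 ≤ y := by rw [hy]; positivity
  have h1 : Real.log ‖x‖ ≤ -(Real.log n / ((n : ℝ) - 1)) + y := by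
    have h2 := Real.log_le_log (by positivity) hx
    rw [Real.log_mul hn0.ne' (by positivity), Real.log_pow, Nat.cast_sub (by omega),
      Nat.cast_one] at h2
    rw [hy, ← sub_nonneg]
    have h3 : -(Real.log n / ((n : ℝ) - 1)) + Real.log A / ((n : ℝ) - 1) - Real.log ‖x‖ =
        (Real.log A - (Real.log n + ((n : ℝ) - 1) * Real.log ‖x‖)) / ((n : ℝ) - 1) := by
      field_simp
      ring
    rw [h3]
    apply div_nonneg _ hm0.le
    linarith
  have h4 : ‖x‖ ≤ Real.exp (-(Real.log n / ((n : ℝ) - 1))) * Real.exp y := by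
    rw [← Real.exp_add, ← Real.log_le_iff_le_exp hx0]
    exact h1
  have hrr : rr n = Real.exp (-(Real.log n / ((n : ℝ) - 1))) * (1 - 1 / n) := rr_eq hn
  rw [hrr]
  obtain ⟨E, hE⟩ : ∃ E, E = Real.exp (-(Real.log n / ((n : ℝ) - 1))) := ⟨_, rfl⟩
  have hE0 : 0 < E := by rw [hE]; exact Real.exp_pos _
  have hE1 : E ≤ 1 := by
    rw [hE, Real.exp_le_one_iff]
    have : 0 ≤ Real.log n := Real.log_natCast_nonneg n
    have : 0 ≤ Real.log n / ((n : ℝ) - 1) := by positivity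
    linarith
  rw [← hE] at h4 ⊢
  have h5 : Real.exp y ≤ 1 + y + y ^ 2 := by
    have h6 := Real.abs_exp_sub_one_sub_id_le (x := y) (by rw [abs_of_nonneg hy0]; exact hA2)
    have := (abs_le.1 h6).2
    linarith
  have h7 : 0 ≤ y + y ^ 2 + 1 / n := by positivity
  calc ‖x‖ - E * (1 - 1 / n) ≤ E * Real.exp y - E * (1 - 1 / n) := by linarith
    _ = E * (Real.exp y - 1 + 1 / n) := by ring
    _ ≤ E * (y + y ^ 2 + 1 / n) := mul_le_mul_of_nonneg_left (by linarith) hE0.le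
    _ ≤ 1 * (y + y ^ 2 + 1 / n) := mul_le_mul_of_nonneg_right hE1 h7
    _ = _ := one_mul _

end Pool.Agent.H7M.Gap
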