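import Mathlib
import Pool.Agent.H7M.Gap3

set_option autoImplicit false

/-! # The width of the fjords: asymptotics -/

namespace Pool.Agent.H7M.Gap

open Set Metric Filter Topology Complex N62a1eb23 Pool.Agent.H712R2 Pool.Agent.N228.LC
  Pool.Agent.H7M.St

theorem ev_ge (m : ℕ) (A : ℝ) : ∀ᶠ n : ℕ in atTop, ∀ i, i ≤ m → A ≤ L i n := by
  have h1 : ∀ᶠ n : ℕ in atTop, ∀ i ∈ Set.Iic m, A ≤ L i n :=
    (Set.finite_Iic m).eventually_all.2 fun i _ => (tendsto_L i).eventually_ge_atTop A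
  filter_upwards [h1] with n hn i hi
  exact hn i hi

theorem L_one (n : ℕ) : L 1 n = Real.log n := by rw [L_succ, L_zero]

theorem ev_rr : ∀ᶠ n : ℕ in atTop, 1 / 2 ≤ rr n := by
  filter_upwards [ev_logsq (show (0 : ℝ) < 1 / 16 by norm_num), eventually_ge_atTop 8,
    ev_ge 1 1] with n h1 h2 h3
  have hnr : (8 : ℝ) ≤ n := by exact_mod_cast h2
  have hm0 : 0 < (n : ℝ) - 1 := by linarith
  have hl := h3 1 le_rfl
  rw [L_one] at hl
  have hrr : rr n = Real.exp (-(Real.log n / ((n : ℝ) - 1))) * (1 - 1 / n) := rr_eq (by omega)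
  rw [hrr]
  have hq : Real.log n / ((n : ℝ) - 1) ≤ 1 / 8 := by
    rw [div_le_iff₀ hm0]
    nlinarith
  have h4 := Real.add_one_le_exp (-(Real.log n / ((n : ℝ) - 1)))
  have h5 : 7 / 8 ≤ Real.exp (-(Real.log n / ((n : ℝ) - 1))) := by linarith
  have h6 : 7 / 8 ≤ 1 - 1 / (n : ℝ) := by
    have : 1 / (n : ℝ) ≤ 1 / 8 := one_div_le_one_div_of_le (by norm_num) hnr
    linarith
  nlinarith

/-- the asymptotics of the depth -/
theorem ev_up (m : ℕ) {η : ℝ} (hη : 0 < η) (hη1 : η ≤ 1) : ∀ᶠ n : ℕ in atTop,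
    Real.log ((1 + η) * L (m + 1) n) / ((n : ℝ) - 1) ≤ 1 ∧
    Real.log ((1 + η) * L (m + 1) n) / ((n : ℝ) - 1) +
      (Real.log ((1 + η) * L (m + 1) n) / ((n : ℝ) - 1)) ^ 2 + 1 / n ≤
      (L (m + 2) n + 1 + 2 * η) / n := by
  filter_upwards [ev_logsq (show 0 < η / 20 by linarith), eventually_ge_atTop 2,
    ev_ge (m + 2) 3] with n h1 h2 h3
  have hnr : (2 : ℝ) ≤ n := by exact_mod_cast h2
  have hn0 : (0 : ℝ) < n := by linarith
  have hm0 : 0 < (n : ℝ) - 1 := by linarith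
  obtain ⟨l, hl⟩ : ∃ l, l = Real.log n := ⟨_, rfl⟩
  have hl3 : 3 ≤ l := by
    rw [hl, ← L_one]
    exact h3 1 (by omega)
  rw [← hl] at h1
  have hLl : L (m + 2) n ≤ l := by
    rw [hl, ← L_one]
    have h7 := L_anti (n := n) (m := m + 2) (fun i hi => by have := h3 i hi; linarith) (m + 1) 1
      (by omega)
    have h8 : 1 + (m + 1) = m + 2 := by omega
    rwa [h8] at h7
  obtain ⟨B, hB⟩ : ∃ B, B = Real.log ((1 + η) * L (m + 1) n) := ⟨_, rfl⟩
  have hL3 := h3 (m + 1) (by omega)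
  have hB1 : B ≤ L (m + 2) n + η := by
    rw [hB, Real.log_mul (by linarith) (by linarith), ← L_succ]
    have h4 := Real.log_le_sub_one_of_pos (show 0 < 1 + η by linarith)
    have h5 : m + 1 + 1 = m + 2 := rfl
    rw [h5]
    linarith
  have hB0 : 0 ≤ B := by
    rw [hB]
    apply Real.log_nonneg
    nlinarith
  have hB2 : B ≤ 2 * l := by linarith
  rw [← hB]
  have hl2 : l ^ 2 ≤ η / 20 * n := h1
  have hBn : 2 * B ≤ n := by nlinarith
  constructor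
  · rw [div_le_one hm0]
    nlinarith
  · have e1 : B / ((n : ℝ) - 1) ≤ (B + 2 * B / n) / n := by
      rw [div_le_div_iff₀ hm0 hn0]
      have e2 : (B + 2 * B / n) * ((n : ℝ) - 1) = B * n - B + 2 * B * (((n : ℝ) - 1) / n) := by
        field_simp
      rw [e2]
      have e3 : 1 / 2 ≤ ((n : ℝ) - 1) / n := by
        rw [le_div_iff₀ hn0]
        linarith
      nlinarith
    have e4 : (B / ((n : ℝ) - 1)) ^ 2 ≤ (4 * B ^ 2 / n) / n := by
      rw [div_pow, div_div, div_le_div_iff₀ (by positivity) (by positivity)]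
      have e5 : (n : ℝ) * n ≤ 4 * ((n : ℝ) - 1) ^ 2 := by nlinarith
      nlinarith [sq_nonneg B]
    have e6 : 2 * B / n + 4 * B ^ 2 / n ≤ η := by
      rw [← add_div, div_le_iff₀ hn0]
      have e7 : B ^ 2 ≤ 4 * l ^ 2 := by nlinarith
      nlinarith
    calc B / ((n : ℝ) - 1) + (B / ((n : ℝ) - 1)) ^ 2 + 1 / n ≤
          (B + 2 * B / n) / n + (4 * B ^ 2 / n) / n + 1 / n := by linarith
      _ = (B + (2 * B / n + 4 * B ^ 2 / n) + 1) / n := by ring
      _ ≤ (L (m + 2) n + 1 + 2 * η) / n := by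
          apply div_le_div_of_nonneg_right _ hn0.le
          linarith

/-- **Parameters near the cusp directions are not deep.** -/
theorem gap (m : ℕ) {ε : ℝ} (hε : 0 < ε) : ∃ c : ℝ, 0 < c ∧ ∀ᶠ n : ℕ in atTop,
    ∀ (x ω : ℂ) (t : ℝ), x ∈ multibrotSet n → ω ^ (n - 1) = 1 → 0 ≤ t →
      ‖x - t * ω‖ ≤ c / (n * ∏ j ∈ Finset.range m, L (j + 1) n) →
      ‖x‖ - rr n ≤ (L (m + 2) n + 1 + ε) / n := by
  obtain ⟨η, hη⟩ : ∃ η, η = min (ε / 2) (1 / 2) := ⟨_, rfl⟩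
  have hη0 : 0 < η := by rw [hη]; exact lt_min (by linarith) (by norm_num)
  have hη1 : η ≤ 1 / 2 := by rw [hη]; exact min_le_right _ _
  have hη2 : 2 * η ≤ ε := by
    have : η ≤ ε / 2 := by rw [hη]; exact min_le_left _ _
    linarith
  obtain ⟨κ, hκ⟩ : ∃ κ, κ = (1 + η / 2) / (1 + η) := ⟨_, rfl⟩
  have hκη : κ * (1 + η) = 1 + η / 2 := by
    rw [hκ]
    field_simp
  have hκ1 : κ < 1 := by
    rw [hκ, div_lt_one (by linarith)]
    linarith
  have hκ2 : 4 / 5 ≤ κ := by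
    rw [hκ, le_div_iff₀ (by linarith)]
    linarith
  obtain ⟨φ0, hφ0⟩ : ∃ φ0, φ0 = Real.sqrt (2 * (1 - κ)) := ⟨_, rfl⟩
  have hφ00 : 0 < φ0 := by
    rw [hφ0]
    apply Real.sqrt_pos.2
    linarith
  have hφsq : φ0 ^ 2 = 2 * (1 - κ) := by
    rw [hφ0, Real.sq_sqrt (by linarith)]
  have hφ : ∀ φ : ℝ, |φ| ≤ φ0 → κ ≤ Real.cos φ := by
    intro φ h
    have h1 := Real.one_sub_sq_div_two_le_cos (x := φ)
    have h2 : φ ^ 2 ≤ φ0 ^ 2 := by
      rw [← sq_abs φ]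
      exact pow_le_pow_left₀ (abs_nonneg _) h 2
    rw [hφsq] at h2
    linarith
  obtain ⟨c, hc⟩ : ∃ c, c = min 1 (φ0 / (3 * ((m + 1) * 3 ^ m))) := ⟨_, rfl⟩
  have hc0 : 0 < c := by
    rw [hc]
    apply lt_min one_pos
    positivity
  have hc1 : c ≤ 1 := by rw [hc]; exact min_le_left _ _
  have hc2 : 3 * c * ((m + 1) * 3 ^ m) ≤ φ0 := by
    have h1 : c ≤ φ0 / (3 * ((m + 1) * 3 ^ m)) := by rw [hc]; exact min_le_right _ _
    rw [le_div_iff₀ (by positivity)] at h1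
    linarith
  refine ⟨c, hc0, ?_⟩
  have hexp : ∀ᶠ n : ℕ in atTop, 8 ≤ Real.exp (η / 2 * L 1 n) := by
    have h1 : Tendsto (fun n => Real.exp (η / 2 * L 1 n)) atTop atTop :=
      Real.tendsto_exp_atTop.comp ((tendsto_L 1).const_mul_atTop (by linarith))
    exact h1.eventually_ge_atTop 8
  filter_upwards [ev_ge (m + 2) 3, ev_logsq (show (0 : ℝ) < 1 / 9 by norm_num), hexp, ev_rr,
    eventually_ge_atTop 8, ev_up m hη0 (by linarith)] with n h1 h2 h3 h4 h5 h6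
  intro x ω t hx hω ht hd
  have hnr : (8 : ℝ) ≤ n := by exact_mod_cast h5
  have hn0 : (0 : ℝ) < n := by linarith
  have hLm := h1 (m + 2) le_rfl
  rcases lt_or_ge ‖x‖ (1 / 2) with hx2 | hx2
  · have h7 : 0 ≤ (L (m + 2) n + 1 + ε) / n := by
      apply div_nonneg _ hn0.le
      linarith
    linarith
  have hprod : 1 ≤ ∏ j ∈ Finset.range m, L (j + 1) n := by
    apply one_le_prod
    intro l hl
    have := h1 (l + 1) (by omega)
    linarith
  obtain ⟨Q, hQ⟩ : ∃ Q, Q = ∏ j ∈ Finset.range m, L (j + 1) n := ⟨_, rfl⟩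
  rw [← hQ] at hd hprod
  have hδ : c / (n * Q) ≤ 1 / 8 := by
    rw [div_le_iff₀ (by positivity)]
    nlinarith
  obtain ⟨α, hα, hu⟩ := near_ray hω (by omega) ht hd hx2 hδ
  have hα2 : |α| * ((m + 1) * 3 ^ m * Q) ≤ φ0 := by
    have h7 : 3 * (n : ℝ) * (c / (n * Q)) = 3 * c / Q := by field_simp
    rw [h7] at hα
    calc |α| * ((m + 1) * 3 ^ m * Q) ≤ 3 * c / Q * ((m + 1) * 3 ^ m * Q) :=
          mul_le_mul_of_nonneg_right hα (by positivity)
      _ = 3 * c * ((m + 1) * 3 ^ m) := by field_simp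
      _ ≤ φ0 := hc2
  have hTle : n * ‖x‖ ^ (n - 1) ≤ (1 + η) * L (m + 1) n := by
    by_contra hcon
    push Not at hcon
    refine escape_main (m := m) hu hn0 (fun i hi => h1 i (by omega)) hκ2 hκ1.le hη0 (by linarith)
      hκη.ge hφ (by rw [← hQ]; exact hα2) (by rw [norm_pow]; exact hcon.le) ?_ h3
      (zz_le (by omega) hx hx2)
    rw [mul_pow, L_one]
    linarith
  have hA : 1 ≤ (1 + η) * L (m + 1) n := by
    have := h1 (m + 1) (by omega)
    nlinarith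
  have h8 := depth_le (by omega) hA (by linarith) hTle h6.1
  refine h8.trans (h6.2.trans ?_)
  apply div_le_div_of_nonneg_right _ hn0.le
  linarith

/-- the same for two points in different sectors -/
theorem gap_pair (m : ℕ) {ε : ℝ} (hε : 0 < ε) : ∃ c : ℝ, 0 < c ∧ ∀ᶠ n : ℕ in atTop,
    ∀ x ∈ multibrotSet n, ∀ y ∈ multibrotSet n, ∀ j : ℤ, x ∈ sector (th n j) (th n (j + 1)) →
      y ∉ sector (th n j) (th n (j + 1)) →
      dist x y ≤ c / (n * ∏ j ∈ Finset.range m, L (j + 1) n) →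
      ‖x‖ - rr n ≤ (L (m + 2) n + 1 + ε) / n ∧ ‖y‖ - rr n ≤ (L (m + 2) n + 1 + ε) / n := by
  obtain ⟨c, hc, h⟩ := gap m hε
  refine ⟨c, hc, ?_⟩
  filter_upwards [h, eventually_ge_atTop 2] with n hn hn2
  intro x hx y hy j hxs hys hd
  obtain ⟨t, ω, ht, hω, h1, h2⟩ := cross hn2 j hxs hys
  exact ⟨hn x ω t hx hω ht (h1.trans hd), hn y ω t hy hω ht (h2.trans hd)⟩

end Pool.Agent.H7M.Gap
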