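import Mathlib
import Pool.Agent.H7M.Gap4

set_option autoImplicit false

/-! # The fjords of the Multibrot sets: both bounds -/

namespace Pool.Agent.H7M.Fin

open Set Metric Filter Topology Complex N62a1eb23 Pool.Agent.H712R2 Pool.Agent.N228.LC
  Pool.Agent.H7M.St Pool.Agent.H7M.Gap

/-- product of iterated logarithms -/
noncomputable def Q (m n : ℕ) : ℝ := ∏ j ∈ Finset.range m, L (j + 1) n

/-- the pairs of superattracting parameters, with their sectors -/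
theorem pairs_succ (m : ℕ) {ε : ℝ} (hε : 0 < ε) : ∀ᶠ n : ℕ in atTop,
    ∃ x ∈ multibrotSet n, ∃ y ∈ multibrotSet n, ∃ j : ℤ, P n (m + 3) x = 0 ∧ P n (m + 3) y = 0 ∧
      dist x y ≤ (2 * Real.pi + ε) / (n * Q (m + 1) n) ∧
      x ∈ sector (th n j) (th n (j + 1)) ∧ y ∉ sector (th n j) (th n (j + 1)) ∧
      (L (m + 2) n + 1 - ε) / n ≤ ‖x‖ - rr n := by
  filter_upwards [ev_hyp m, ev_dist m hε, ev_depth m hε, eventually_ge_atTop 3] with n h1 h2 h3 h4
  obtain ⟨x, hx1, hx2, hx0, hxy, hd, hs1, hs2, hdep⟩ := step h1 h4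
  have hnr : (3 : ℝ) ≤ n := by exact_mod_cast h4
  have hn0 : (0 : ℝ) < n := by linarith
  have hm0 : 0 < (n : ℝ) - 1 := by linarith
  have hprod : 0 < Q (m + 1) n := by
    apply Finset.prod_pos
    intro j hj
    have h5 := h1.hge j (by have := Finset.mem_range.1 hj; omega)
    have h6 := h1.a_big
    linarith
  refine ⟨x, mem_of_period (by omega) hx1, (starRingEnd ℂ) x, mem_of_period (by omega) hx2, 0,
    hx1, hx2, ?_, hs1, hs2, ?_⟩
  · refine hd.trans ?_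
    have h5 : 2 * Real.pi * cf n (L (m + 1) n) ^ (m + 1) /
        (((n : ℝ) - 1) * ∏ j ∈ Finset.range (m + 1), L (j + 1) n) =
        (2 * Real.pi * cf n (L (m + 1) n) ^ (m + 1) * ((n : ℝ) / ((n : ℝ) - 1))) /
        (n * Q (m + 1) n) := by
      unfold Q at hprod ⊢
      field_simp
    rw [h5]
    exact div_le_div_of_nonneg_right h2 (by positivity)
  · refine le_trans ?_ hdep
    rw [← mul_div_assoc]
    exact div_le_div_of_nonneg_right h3 hn0.le

theorem pairs_zero {ε : ℝ} (hε : 0 < ε) : ∀ᶠ n : ℕ in atTop,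
    ∃ x ∈ multibrotSet n, ∃ y ∈ multibrotSet n, ∃ j : ℤ, P n 2 x = 0 ∧ P n 2 y = 0 ∧
      dist x y ≤ (2 * Real.pi + ε) / (n * Q 0 n) ∧
      x ∈ sector (th n j) (th n (j + 1)) ∧ y ∉ sector (th n j) (th n (j + 1)) ∧
      (L 1 n + 1 - ε) / n ≤ ‖x‖ - rr n := by
  filter_upwards [eventually_ge_atTop 3, ev_logsq (show 0 < ε / 4 by linarith), ev_ge 1 1,
    tendsto_natCast_atTop_atTop.eventually_ge_atTop ((2 * Real.pi + ε) / ε)] with n h1 h2 h3 h4
  have hnr : (3 : ℝ) ≤ n := by exact_mod_cast h1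
  have hn0 : (0 : ℝ) < n := by linarith
  have hm0 : 0 < (n : ℝ) - 1 := by linarith
  obtain ⟨x, hx⟩ := IsAlgClosed.exists_pow_nat_eq (-1 : ℂ) (Nat.pos_of_ne_zero
    (show n - 1 ≠ 0 by omega))
  obtain ⟨hxM, hx1, hd, j, hs1, hs2⟩ := period_two h1 hx
  have hmC : (n : ℂ) - 1 ≠ 0 := by
    intro h
    have : ((n : ℝ) - 1 : ℝ) = 0 := by exact_mod_cast h
    linarith
  have hcast : ((n - 1 : ℕ) : ℂ) = (n : ℂ) - 1 := by
    rw [Nat.cast_sub (by omega)]; simp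
  have hy : (x * Complex.exp ((2 * Real.pi / ((n : ℝ) - 1) : ℝ) * I)) ^ (n - 1) = -1 := by
    rw [mul_pow, hx, ← Complex.exp_nat_mul, hcast]
    have : ((n : ℂ) - 1) * (((2 * Real.pi / ((n : ℝ) - 1) : ℝ) : ℂ) * I) = 2 * Real.pi * I := by
      push_cast; field_simp
    rw [this, Complex.exp_two_pi_mul_I, mul_one]
  have hper : ∀ z : ℂ, z ^ (n - 1) = -1 → P n 2 z = 0 := by
    intro z hz
    rw [P_succ, P_one (by omega)]
    have : z ^ n = z ^ (n - 1) * z := by rw [← pow_succ]; congr 1; omega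
    rw [this, hz]
    ring
  refine ⟨x, hxM, _, (period_two h1 hy).1, j, hper x hx, hper _ hy, ?_, hs1, hs2, ?_⟩
  · refine hd.trans ?_
    have hQ : Q 0 n = 1 := by
      unfold Q
      rw [Finset.range_zero, Finset.prod_empty]
    rw [hQ, mul_one, div_le_div_iff₀ hm0 hn0]
    rw [div_le_iff₀ hε] at h4
    linarith
  · have h5 := depth_ge h1 (τ := (n : ℂ)) (by rw [Complex.norm_natCast]; linarith)
    rw [Complex.norm_natCast] at h5
    have h6 : Complex.exp ((Complex.log n - Real.log n) / ((n : ℂ) - 1)) = 1 := by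
      rw [← Complex.natCast_log, sub_self, zero_div, Complex.exp_zero]
    rw [h6, norm_one] at h5
    rw [hx1]
    refine le_trans ?_ h5
    rw [← mul_div_assoc]
    apply div_le_div_of_nonneg_right _ hn0.le
    rw [L_one]
    obtain ⟨l, hl⟩ : ∃ l, l = Real.log n := ⟨_, rfl⟩
    have hl1 : 1 ≤ l := by
      have := h3 1 le_rfl
      rw [L_one] at this
      rw [hl]
      exact this
    rw [← hl] at h2 ⊢
    have h7 : l / ((n : ℝ) - 1) * (l + 1) ≤ ε := by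
      rw [div_mul_eq_mul_div, div_le_iff₀ hm0]
      nlinarith
    linarith

/-- all levels -/
theorem pairs {k : ℕ} (hk : 1 ≤ k) {ε : ℝ} (hε : 0 < ε) : ∀ᶠ n : ℕ in atTop,
    ∃ x ∈ multibrotSet n, ∃ y ∈ multibrotSet n, ∃ j : ℤ, P n (k + 1) x = 0 ∧ P n (k + 1) y = 0 ∧
      dist x y ≤ (2 * Real.pi + ε) / (n * Q (k - 1) n) ∧
      x ∈ sector (th n j) (th n (j + 1)) ∧ y ∉ sector (th n j) (th n (j + 1)) ∧
      (L k n + 1 - ε) / n ≤ ‖x‖ - rr n := by
  rcases Nat.lt_or_ge k 2 with h | h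
  · have : k = 1 := by omega
    subst this
    exact pairs_zero hε
  · obtain ⟨m, rfl⟩ : ∃ m, k = m + 2 := ⟨k - 2, by omega⟩
    exact pairs_succ m hε

/-- The depth to which two points of the Multibrot set on different sides of a cusp direction have
distance at most `δ`. -/
noncomputable def dep (n : ℕ) (δ : ℝ) : ℝ :=
  sSup {D : ℝ | ∃ x ∈ multibrotSet n, ∃ y ∈ multibrotSet n, ∃ j : ℤ,
    x ∈ sector (th n j) (th n (j + 1)) ∧ y ∉ sector (th n j) (th n (j + 1)) ∧ dist x y ≤ δ ∧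
    D = ‖x‖ - rr n}

theorem le_dep {n : ℕ} (hn : 2 ≤ n) {δ : ℝ} {x y : ℂ} (hx : x ∈ multibrotSet n)
    (hy : y ∈ multibrotSet n) {j : ℤ} (hxs : x ∈ sector (th n j) (th n (j + 1)))
    (hys : y ∉ sector (th n j) (th n (j + 1))) (hd : dist x y ≤ δ) : ‖x‖ - rr n ≤ dep n δ := by
  apply le_csSup
  · refine ⟨2, ?_⟩
    rintro _ ⟨x, hx, y, hy, j, -, -, -, rfl⟩
    have h1 := norm_le_two hn hx
    have h2 := rr_pos hn
    linarith
  · exact ⟨x, hx, y, hy, j, hxs, hys, hd, rfl⟩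

theorem dep_le {n : ℕ} {δ : ℝ} {B : ℝ} (hB : 0 ≤ B) (h : ∀ x ∈ multibrotSet n,
    ∀ y ∈ multibrotSet n, ∀ j : ℤ, x ∈ sector (th n j) (th n (j + 1)) →
      y ∉ sector (th n j) (th n (j + 1)) → dist x y ≤ δ → ‖x‖ - rr n ≤ B) : dep n δ ≤ B := by
  apply Real.sSup_le _ hB
  rintro _ ⟨x, hx, y, hy, j, hxs, hys, hd, rfl⟩
  exact h x hx y hy j hxs hys hd

/-- the depth is a lower bound of the modulus of local connectivity -/
theorem dep_le_modulus {n : ℕ} (hn : 2 ≤ n) {δ : ℝ} :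
    dep n δ ≤ modulus (multibrotSet n) δ := by
  apply dep_le
  · apply Real.sSup_nonneg
    rintro _ ⟨x, hx, y, hy, -, rfl⟩
    apply Real.sInf_nonneg
    rintro _ ⟨S, -, -, -, -, -, rfl⟩
    exact Metric.diam_nonneg
  · intro x hx y hy j hxs hys hd
    refine le_trans ?_ (le_modulus hn hx hy hd)
    apply le_joining hn hx hy
    intro S hS hSc hxS hyS
    have h7 := diam_ge hn j hS hSc hxS hyS hxs hys
    have h9 := le_max_left ‖x‖ ‖y‖
    linarith

/-- **The staircase.** -/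
theorem dep_asymp {k : ℕ} (hk : 2 ≤ k) {ε : ℝ} (hε : 0 < ε) : ∃ c : ℝ, 0 < c ∧
    ∀ᶠ n : ℕ in atTop, ∀ δ : ℝ, (2 * Real.pi + ε) / (n * Q (k - 1) n) ≤ δ →
      δ ≤ c / (n * Q (k - 2) n) → |n * dep n δ - (L k n + 1)| ≤ ε := by
  obtain ⟨m, rfl⟩ : ∃ m, k = m + 2 := ⟨k - 2, by omega⟩
  obtain ⟨c, hc, h⟩ := gap_pair m hε
  refine ⟨c, hc, ?_⟩
  filter_upwards [h, pairs (show 1 ≤ m + 2 by omega) hε, eventually_ge_atTop 2,
    ev_ge (m + 2) 1] with n h1 h2 h3 h4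
  intro δ hδ1 hδ2
  have hnr : (2 : ℝ) ≤ n := by exact_mod_cast h3
  have hn0 : (0 : ℝ) < n := by linarith
  have hL := h4 (m + 2) le_rfl
  obtain ⟨x, hx, y, hy, j, -, -, hd, hs1, hs2, hdep⟩ := h2
  have h5 := le_dep h3 hx hy hs1 hs2 (hd.trans hδ1)
  have h6 : dep n δ ≤ (L (m + 2) n + 1 + ε) / n := by
    apply dep_le
    · apply div_nonneg _ hn0.le
      linarith
    · intro x hx y hy j hxs hys hd
      exact (h1 x hx y hy j hxs hys (hd.trans hδ2)).1
  rw [le_div_iff₀ hn0] at h6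
  have h7 : (L (m + 2) n + 1 - ε) / n ≤ dep n δ := hdep.trans h5
  rw [div_le_iff₀ hn0] at h7
  rw [abs_le]
  constructor <;> linarith

end Pool.Agent.H7M.Fin
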